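import Pool.Agent.H9.KA.Defs

/-!
# Independent uniform seeds
-/

set_option autoImplicit false

namespace Pool.KMX

open Finset Real
open Pool.Agent.H49.Ent Pool.Agent.H32.Dense Pool.STK Pool.KA

variable {Ω E S T : Type} [Fintype Ω] [Fintype E] {p : Ω → ℝ}

/-- The law with an independent uniform seed. -/
noncomputable def sd (p : Ω → ℝ) (E : Type) [Fintype E] (w : Ω × E) : ℝ :=
  p w.1 / Fintype.card E

lemma sd_isLaw (hp : IsLaw p) [Nonempty E] : IsLaw (sd p E) := by
  have hc : (0 : ℝ) < Fintype.card E := by exact_mod_cast Fintype.card_pos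
  refine ⟨fun w => div_nonneg (hp.nonneg _) hc.le, ?_⟩
  unfold sd
  rw [Fintype.sum_prod_type]
  have h : ∀ ω : Ω, ∑ _e : E, p ω / (Fintype.card E : ℝ) = p ω := by
    intro ω
    rw [Finset.sum_const, Finset.card_univ, nsmul_eq_mul]
    field_simp
  rw [Finset.sum_congr rfl fun ω _ => h ω]
  exact hp.sum_one

lemma sd_H_fst [Nonempty E] (X : Ω → S) : H (sd p E) (fun w => X w.1) = H p X := by
  classical
  have hc : (0 : ℝ) < Fintype.card E := by exact_mod_cast Fintype.card_pos
  refine H_eq_of_marginal (q := sd p E) (p := p) (Prod.fst : Ω × E → Ω) ?_ X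
  intro ω
  rw [Fintype.sum_prod_type, Finset.sum_eq_single ω]
  · have : ∀ e : E, (if (ω, e).1 = ω then sd p E (ω, e) else 0) = p ω / Fintype.card E :=
      fun e => if_pos rfl
    rw [Finset.sum_congr rfl fun e _ => this e, Finset.sum_const, Finset.card_univ,
      nsmul_eq_mul]
    field_simp
  · intro b _ hb
    exact Finset.sum_eq_zero fun e _ => if_neg hb
  · intro h
    exact absurd (Finset.mem_univ _) h

lemma sd_law_pair [Nonempty E] (X : Ω → S) (w : Ω × E) :
    law (sd p E) (fun w => (X w.1, w.2)) (X w.1, w.2) = law p X (X w.1) / Fintype.card E := by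
  classical
  unfold law sd
  rw [Fintype.sum_prod_type, Finset.sum_div]
  refine Finset.sum_congr rfl fun ω _ => ?_
  rw [Finset.sum_eq_single w.2]
  · by_cases h : X ω = X w.1
    · rw [if_pos h, if_pos]
      exact Prod.ext h rfl
    · rw [if_neg h, if_neg, zero_div]
      exact fun h' => h (Prod.ext_iff.mp h').1
  · intro e _ he
    exact if_neg fun h' => he (Prod.ext_iff.mp h').2
  · intro h
    exact absurd (Finset.mem_univ _) h

lemma sd_H_pair (hp : IsLaw p) [Nonempty E] (X : Ω → S) :
    H (sd p E) (fun w => (X w.1, w.2)) = H p X + Real.log (Fintype.card E) := by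
  have hc : (0 : ℝ) < Fintype.card E := by exact_mod_cast Fintype.card_pos
  have h1 : H p X = -∑ w : Ω × E, sd p E w * Real.log (law p X (X w.1)) := by
    rw [Fintype.sum_prod_type]
    unfold H
    congr 1
    refine Finset.sum_congr rfl fun ω _ => ?_
    unfold sd
    change p ω * log (law p X (X ω)) = ∑ _y : E, p ω / Fintype.card E * log (law p X (X ω))
    rw [Finset.sum_const, Finset.card_univ, nsmul_eq_mul]
    field_simp
  have h2 : Real.log (Fintype.card E) = ∑ w : Ω × E, sd p E w * Real.log (Fintype.card E) := by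
    rw [← Finset.sum_mul, (sd_isLaw hp (E := E)).sum_one, one_mul]
  rw [h1, h2]
  unfold H
  have key : ∑ w : Ω × E, sd p E w * Real.log (law (sd p E) (fun w => (X w.1, w.2)) (X w.1, w.2)) =
      ∑ w : Ω × E, (sd p E w * Real.log (law p X (X w.1)) -
        sd p E w * Real.log (Fintype.card E)) := by
    refine Finset.sum_congr rfl fun w _ => ?_
    rw [sd_law_pair (p := p) (E := E) X w]
    by_cases h0 : p w.1 = 0
    · simp [sd, h0]
    · have hω : 0 < p w.1 := lt_of_le_of_ne (hp.nonneg _) (Ne.symm h0)
      have hl := law_pos hp.nonneg X hω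
      rw [Real.log_div hl.ne' hc.ne']
      ring
  rw [Finset.sum_sub_distrib] at key
  linarith

lemma sd_CH_fst [Nonempty E] (X : Ω → S) (W : Ω → T) :
    CH (sd p E) (fun w => X w.1) (fun w => W w.1) = CH p X W := by
  unfold CH
  rw [sd_H_fst (p := p) (E := E) (fun ω => (X ω, W ω)), sd_H_fst (p := p) (E := E) W]

/-- An independent seed in the condition has no influence. -/
lemma sd_CH_seed (hp : IsLaw p) [Nonempty E] (X : Ω → S) (W : Ω → T) :
    CH (sd p E) (fun w => X w.1) (fun w => (W w.1, w.2)) = CH p X W := by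
  have hq := (sd_isLaw hp (E := E)).nonneg
  unfold CH
  have h1 : H (sd p E) (fun w => (X w.1, (W w.1, w.2))) =
      H (sd p E) (fun w => ((X w.1, W w.1), w.2)) := by
    refine H_congr hq ?_ ?_
    · intro w w' _ _ h
      simp only [Prod.mk.injEq] at h ⊢
      tauto
    · intro w w' _ _ h
      simp only [Prod.mk.injEq] at h ⊢
      tauto
  rw [h1, sd_H_pair hp (E := E) (fun ω => (X ω, W ω)), sd_H_pair hp (E := E) W]
  ring

/-- The seed is uniform, given the old space. -/
lemma sd_CH_unif (hp : IsLaw p) [Nonempty E] (W : Ω → T) :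
    CH (sd p E) (fun w => w.2) (fun w => W w.1) = Real.log (Fintype.card E) := by
  have hq := (sd_isLaw hp (E := E)).nonneg
  unfold CH
  have h1 : H (sd p E) (fun w => (w.2, W w.1)) = H (sd p E) (fun w => (W w.1, w.2)) := by
    refine H_congr hq ?_ ?_
    · intro w w' _ _ h
      simp only [Prod.mk.injEq] at h ⊢
      tauto
    · intro w w' _ _ h
      simp only [Prod.mk.injEq] at h ⊢
      tauto
  rw [h1, sd_H_pair hp (E := E) W, sd_H_fst (p := p) (E := E) W]
  ring

end Pool.KMX
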