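import Pool.Agent.H15.KMAX.PKPz
import Pool.Agent.H15.KMAX.Seed
import Pool.Agent.H12.KA.WIN
import Pool.Agent.H13.K2S.Rows

/-!
# The filling lemma

Let the digits of the time beyond `s` be live. The digits of the time beyond `r ≤ s - 3` are
replaced by fresh ones, such that the new time is not in the old window of length `2 ^ (-s)` nor
in one of its neighbours. The entropy of the space-time position grows by at most
`(m + 1) (s - r)` bits, by the projective form of `K'(m)`.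
-/

set_option autoImplicit false

namespace Pool.KMX

open Finset Real
open Pool.Agent.H49.Ent Pool.Agent.H32.Dense Pool.STK Pool.KA

variable {m J : ℕ}

/-- The digits of the time between `a` and `b` are uniform, given the line, the side information
and the first `a` digits, up to a deficit `e`. -/
def Lv (F : Fam m J) (a b : ℕ) (e : ℝ) : Prop :=
  ((b : ℝ) - a) * Real.log 2 - e ≤ CH F.p (F.T1 b) (fun ω => (F.T1 a ω, (F.l ω, F.Z ω)))

/-- A window with index at distance at least two from `a`. -/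
def phi (a k : ℕ) : ℕ := if k + 1 < a then k else k + 3

lemma phi_lt {a k n : ℕ} (hk : k < n - 3) : phi a k < n := by
  unfold phi
  split_ifs <;> omega

lemma phi_inj {a k k' : ℕ} (h : phi a k = phi a k') : k = k' := by
  unfold phi at h
  split_ifs at h <;> omega

lemma phi_far (a k : ℕ) : phi a k + 2 ≤ a ∨ a + 2 ≤ phi a k := by
  unfold phi
  split_ifs <;> omega

/-- The seeds of the filling. -/
abbrev FE (r s J : ℕ) : Type := Fin (2 ^ (s - r) - 3) × Fin (2 ^ (J - s))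

lemma pow_ge {r s : ℕ} (hL : r + 3 ≤ s) : 8 ≤ 2 ^ (s - r) := by
  have : 2 ^ 3 ≤ 2 ^ (s - r) := Nat.pow_le_pow_right (by norm_num) (by omega)
  linarith

lemma FE_nonempty {r s J : ℕ} (hL : r + 3 ≤ s) : Nonempty (FE r s J) := by
  have h := pow_ge hL
  have h1 : 0 < 2 ^ (s - r) - 3 := by omega
  have h2 : 0 < 2 ^ (J - s) := by positivity
  exact ⟨(⟨0, h1⟩, ⟨0, h2⟩)⟩

/-- The new time. -/
def Tf (F : Fam m J) (r s : ℕ) (w : F.Ω × FE r s J) : ℕ :=
  F.T1 r w.1 * 2 ^ (J - r) + (phi (F.T1 s w.1 % 2 ^ (s - r)) w.2.1 * 2 ^ (J - s) + w.2.2)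

lemma rest_lt {r s J a : ℕ} (hL : r + 3 ≤ s) (hs : s ≤ J) (e : FE r s J) :
    phi a e.1 * 2 ^ (J - s) + e.2 < 2 ^ (J - r) := by
  have h1 : phi a e.1 < 2 ^ (s - r) := phi_lt e.1.2
  have h2 := e.2.2
  have h3 : 2 ^ (J - r) = 2 ^ (s - r) * 2 ^ (J - s) := by
    rw [← pow_add]
    congr 1
    omega
  rw [h3]
  calc phi a e.1 * 2 ^ (J - s) + e.2 < phi a e.1 * 2 ^ (J - s) + 2 ^ (J - s) := by omega
    _ = (phi a e.1 + 1) * 2 ^ (J - s) := by ring
    _ ≤ 2 ^ (s - r) * 2 ^ (J - s) := Nat.mul_le_mul_right _ h1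

lemma Tf_div {r s : ℕ} (F : Fam m J) (hL : r + 3 ≤ s) (hs : s ≤ J) (w : F.Ω × FE r s J) :
    Tf F r s w / 2 ^ (J - r) = F.T1 r w.1 := by
  unfold Tf
  have h := rest_lt (a := F.T1 s w.1 % 2 ^ (s - r)) hL hs w.2
  rw [Nat.mul_comm, Nat.mul_add_div (by positivity), Nat.div_eq_of_lt h, add_zero]

lemma Tf_lt {r s : ℕ} (F : Fam m J) (hL : r + 3 ≤ s) (hs : s ≤ J) (w : F.Ω × FE r s J) :
    Tf F r s w < 2 ^ J := by
  have h1 := Tf_div F hL hs w
  have h2 := Win.T1_lt F r (by omega) w.1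
  rw [← h1, Nat.div_lt_iff_lt_mul (by positivity), ← pow_add] at h2
  have e : r + (J - r) = J := by omega
  rwa [e] at h2

/-- The filled family. -/
noncomputable def fill (F : Fam m J) {r s : ℕ} (hL : r + 3 ≤ s) (hs : s ≤ J) : Fam m J where
  Ω := F.Ω × FE r s J
  ζ := F.ζ
  fin := inferInstance
  p := sd F.p (FE r s J)
  u := fun w => F.u w.1
  d := fun w => F.d w.1
  T := Tf F r s
  Z := fun w => F.Z w.1
  isLaw := have := FE_nonempty (J := J) hL; sd_isLaw F.isLaw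
  dir := fun w => F.dir w.1
  tim := Tf_lt F hL hs

/-- The windows of the filled family; the seed is side information. -/
noncomputable def wfil (F : Fam m J) {r s : ℕ} (hL : r + 3 ≤ s) (_ : s ≤ J) :
    Fam m (J - s) where
  Ω := F.Ω × FE r s J
  ζ := ((ℕ × (Fin m → ℤ)) × F.ζ) × FE r s J
  fin := inferInstance
  p := sd F.p (FE r s J)
  u := fun w i => Int.fract (2 ^ s * F.x1 s w.1 i)
  d := fun w => F.d w.1
  T := fun w => F.T w.1 % 2 ^ (J - s)
  Z := fun w => (F.c s w.1, w.2)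
  isLaw := have := FE_nonempty (J := J) hL; sd_isLaw F.isLaw
  dir := fun w => F.dir w.1
  tim := fun _ => Nat.mod_lt _ (by positivity)

/-- The new time relative to the old window. -/
noncomputable def ts {ζ : Type} (r s J : ℕ) (z : ((ℕ × (Fin m → ℤ)) × ζ) × FE r s J) : ℝ :=
  (phi (z.1.1.1 % 2 ^ (s - r)) z.2.1 : ℝ) - ((z.1.1.1 % 2 ^ (s - r) : ℕ) : ℝ) +
    (z.2.2 : ℝ) / 2 ^ (J - s)

lemma ts_far {ζ : Type} {r s J : ℕ} (z : ((ℕ × (Fin m → ℤ)) × ζ) × FE r s J) :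
    ts r s J z ≤ -1 ∨ 2 ≤ ts r s J z := by
  have h1 := phi_far (z.1.1.1 % 2 ^ (s - r)) z.2.1
  have h2 : ((z.2.2 : ℕ) : ℝ) < 2 ^ (J - s) := by exact_mod_cast z.2.2.2
  have h3 : ((z.2.2 : ℕ) : ℝ) / 2 ^ (J - s) < 1 := by
    rw [div_lt_one (by positivity)]
    exact h2
  have h4 : (0 : ℝ) ≤ ((z.2.2 : ℕ) : ℝ) / 2 ^ (J - s) := by positivity
  unfold ts
  rcases h1 with h | h
  · left
    have h' : ((phi (z.1.1.1 % 2 ^ (s - r)) z.2.1 : ℕ) : ℝ) + 2 ≤
        ((z.1.1.1 % 2 ^ (s - r) : ℕ) : ℝ) := by exact_mod_cast h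
    linarith
  · right
    have h' : ((z.1.1.1 % 2 ^ (s - r) : ℕ) : ℝ) + 2 ≤
        ((phi (z.1.1.1 % 2 ^ (s - r)) z.2.1 : ℕ) : ℝ) := by exact_mod_cast h
    linarith

lemma ts_abs {ζ : Type} {r s J : ℕ} (z : ((ℕ × (Fin m → ℤ)) × ζ) × FE r s J) :
    |ts r s J z| ≤ 2 ^ (s - r) := by
  have h1 : phi (z.1.1.1 % 2 ^ (s - r)) z.2.1 < 2 ^ (s - r) := phi_lt z.2.1.2
  have h1' : ((phi (z.1.1.1 % 2 ^ (s - r)) z.2.1 : ℕ) : ℝ) + 1 ≤ 2 ^ (s - r) := by
    exact_mod_cast h1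
  have h1'' : (0 : ℝ) ≤ ((phi (z.1.1.1 % 2 ^ (s - r)) z.2.1 : ℕ) : ℝ) := by positivity
  have h5 : z.1.1.1 % 2 ^ (s - r) < 2 ^ (s - r) := Nat.mod_lt _ (by positivity)
  have h5' : ((z.1.1.1 % 2 ^ (s - r) : ℕ) : ℝ) < 2 ^ (s - r) := by exact_mod_cast h5
  have h5'' : (0 : ℝ) ≤ ((z.1.1.1 % 2 ^ (s - r) : ℕ) : ℝ) := by positivity
  have h2 : ((z.2.2 : ℕ) : ℝ) < 2 ^ (J - s) := by exact_mod_cast z.2.2.2
  have h3 : ((z.2.2 : ℕ) : ℝ) / 2 ^ (J - s) < 1 := by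
    rw [div_lt_one (by positivity)]
    exact h2
  have h4 : (0 : ℝ) ≤ ((z.2.2 : ℕ) : ℝ) / 2 ^ (J - s) := by positivity
  unfold ts
  rw [abs_le]
  constructor <;> linarith

/-- The centre of the projection. -/
noncomputable def kp {ζ : Type} (r s J : ℕ) (z : ((ℕ × (Fin m → ℤ)) × ζ) × FE r s J) : ℝ :=
  (ts r s J z)⁻¹

lemma kp_ge {ζ : Type} {r s J : ℕ} (z : ((ℕ × (Fin m → ℤ)) × ζ) × FE r s J) :
    -1 ≤ kp r s J z := by
  unfold kp
  rcases ts_far z with h | h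
  · have h1 : (ts r s J z) < 0 := by linarith
    rw [neg_le, ← inv_neg]
    rw [inv_le_one_iff₀]
    right
    linarith
  · have h1 : 0 < (ts r s J z) := by linarith
    have : 0 < (ts r s J z)⁻¹ := inv_pos.2 h1
    linarith

lemma kp_le {ζ : Type} {r s J : ℕ} (z : ((ℕ × (Fin m → ℤ)) × ζ) × FE r s J) :
    kp r s J z ≤ 1 / 2 := by
  unfold kp
  rcases ts_far z with h | h
  · have h1 : (ts r s J z)⁻¹ < 0 := inv_lt_zero.2 (by linarith)
    linarith
  · rw [one_div]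
    exact inv_anti₀ (by norm_num) h

lemma kp_mul {ζ : Type} {r s J : ℕ} (z : ((ℕ × (Fin m → ℤ)) × ζ) × FE r s J) :
    ts r s J z * kp r s J z = 1 := by
  unfold kp
  refine mul_inv_cancel₀ ?_
  rcases ts_far z with h | h
  · intro h0
    rw [h0] at h
    linarith
  · intro h0
    rw [h0] at h
    linarith

/-- The new position, in terms of the old window. -/
lemma fill_x (F : Fam m J) {r s : ℕ} (hL : r + 3 ≤ s) (hs : s ≤ J) (w : F.Ω × FE r s J)
    (i : Fin m) : 2 ^ s * (fill F hL hs).x w i =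
      2 ^ s * F.x1 s w.1 i + ts r s J (F.c s w.1, w.2) * F.d w.1 i := by
  have h1 : F.T1 s w.1 = 2 ^ (s - r) * F.T1 r w.1 + F.T1 s w.1 % 2 ^ (s - r) := by
    have a := Nat.div_add_mod (F.T1 s w.1) (2 ^ (s - r))
    have b : F.T1 r w.1 = F.T1 s w.1 / 2 ^ (s - r) := by
      unfold Fam.T1
      rw [Nat.div_div_eq_div_mul, ← pow_add]
      congr 2
      omega
    rw [b]
    exact a.symm
  have h2 : (F.T1 s w.1 : ℝ) = 2 ^ (s - r) * (F.T1 r w.1 : ℝ) +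
      ((F.T1 s w.1 % 2 ^ (s - r) : ℕ) : ℝ) := by exact_mod_cast h1
  have h3 : (2 : ℝ) ^ s = 2 ^ r * 2 ^ (s - r) := by
    rw [← pow_add]
    congr 1
    omega
  have h4 : (2 : ℝ) ^ J = 2 ^ r * 2 ^ (s - r) * 2 ^ (J - s) := by
    rw [← pow_add, ← pow_add]
    congr 1
    omega
  have h5 : (2 : ℝ) ^ (J - r) = 2 ^ (s - r) * 2 ^ (J - s) := by
    rw [← pow_add]
    congr 1
    omega
  have e0 : ts r s J (F.c s w.1, w.2) =
      (phi (F.T1 s w.1 % 2 ^ (s - r)) w.2.1 : ℝ) - ((F.T1 s w.1 % 2 ^ (s - r) : ℕ) : ℝ) +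
        (w.2.2 : ℝ) / 2 ^ (J - s) := rfl
  have e1 : (fill F hL hs).x w i = F.u w.1 i + (Tf F r s w : ℝ) / 2 ^ J * F.d w.1 i := rfl
  have e2 : (Tf F r s w : ℝ) = (F.T1 r w.1 : ℝ) * 2 ^ (J - r) +
      ((phi (F.T1 s w.1 % 2 ^ (s - r)) w.2.1 : ℝ) * 2 ^ (J - s) + (w.2.2 : ℝ)) := by
    unfold Tf
    push_cast
    rfl
  rw [e1, e0, e2]
  unfold Fam.x1
  rw [h2, h5, h4, h3]
  have a1 : (2 : ℝ) ^ r ≠ 0 := by positivity
  have a2 : (2 : ℝ) ^ (s - r) ≠ 0 := by positivity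
  have a3 : (2 : ℝ) ^ (J - s) ≠ 0 := by positivity
  field_simp
  ring

/-- The new position, rounded, in terms of the projective direction of the old window. -/
lemma fill_X (F : Fam m J) {r s : ℕ} (hL : r + 3 ≤ s) (hs : s ≤ J) (w : F.Ω × FE r s J)
    (i : Fin m) : (fill F hL hs).X J w i =
      2 ^ (J - s) * fl s (F.x1 s w.1) i + ⌊ts r s J (F.c s w.1, w.2) * (2 ^ (J - s) *
        (F.d w.1 i + kp r s J (F.c s w.1, w.2) * Int.fract (2 ^ s * F.x1 s w.1 i)))⌋ := by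
  have h := fill_x F hL hs w i
  have e1 : (fill F hL hs).X J w i = ⌊(2 : ℝ) ^ J * (fill F hL hs).x w i⌋ := rfl
  have e2 : fl s (F.x1 s w.1) i = ⌊(2 : ℝ) ^ s * F.x1 s w.1 i⌋ := rfl
  have e3 : (2 : ℝ) ^ J = 2 ^ (J - s) * 2 ^ s := by
    rw [← pow_add]
    congr 1
    omega
  rw [e1, e2, e3, mul_assoc, h]
  have e4 : (2 : ℝ) ^ (J - s) * (2 ^ s * F.x1 s w.1 i +
      ts r s J (F.c s w.1, w.2) * F.d w.1 i) =
      ((2 ^ (J - s) * ⌊(2 : ℝ) ^ s * F.x1 s w.1 i⌋ : ℤ) : ℝ) +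
      ts r s J (F.c s w.1, w.2) * (2 ^ (J - s) *
        (F.d w.1 i + kp r s J (F.c s w.1, w.2) * Int.fract (2 ^ s * F.x1 s w.1 i))) := by
    have k := kp_mul (F.c s w.1, w.2)
    have k2 : ts r s J (F.c s w.1, w.2) * (2 ^ (J - s) *
        (F.d w.1 i + kp r s J (F.c s w.1, w.2) * Int.fract (2 ^ s * F.x1 s w.1 i))) =
        2 ^ (J - s) * (ts r s J (F.c s w.1, w.2) * F.d w.1 i) +
        (ts r s J (F.c s w.1, w.2) * kp r s J (F.c s w.1, w.2)) *
          (2 ^ (J - s) * Int.fract (2 ^ s * F.x1 s w.1 i)) := by ring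
    rw [k2, k, one_mul]
    unfold Int.fract
    push_cast
    ring
  rw [e4, Int.floor_intCast_add]

lemma fill_T1J (F : Fam m J) {r s : ℕ} (hL : r + 3 ≤ s) (hs : s ≤ J) (w : F.Ω × FE r s J) :
    (fill F hL hs).T1 J w = Tf F r s w := by
  unfold Fam.T1
  rw [Nat.sub_self, pow_zero, Nat.div_one]
  rfl

lemma fill_T1 (F : Fam m J) {r s : ℕ} (hL : r + 3 ≤ s) (hs : s ≤ J) {g : ℕ} (hg : g ≤ r)
    (w : F.Ω × FE r s J) : (fill F hL hs).T1 g w = F.T1 g w.1 := by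
  have h1 := Tf_div F hL hs w
  have h2 : (fill F hL hs).T1 g w = Tf F r s w / 2 ^ (J - g) := rfl
  rw [h2]
  unfold Fam.T1 at h1 ⊢
  have h3 : 2 ^ (J - g) = 2 ^ (J - r) * 2 ^ (r - g) := by
    rw [← pow_add]
    congr 1
    omega
  rw [h3, ← Nat.div_div_eq_div_mul, ← Nat.div_div_eq_div_mul, h1]

/-- The digits of the new time beyond `r` determine the seed, given the old time. -/
lemma seed_det (F : Fam m J) {r s : ℕ} {w w' : F.Ω × FE r s J} (g1 : F.T1 r w.1 = F.T1 r w'.1)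
    (g2 : F.T1 s w.1 = F.T1 s w'.1) (g3 : Tf F r s w = Tf F r s w') : w.2 = w'.2 := by
  unfold Tf at g3
  rw [g1, g2] at g3
  have g4 := Nat.add_left_cancel g3
  have k1 := w.2.2.2
  have k2 := w'.2.2.2
  have g5 : phi (F.T1 s w'.1 % 2 ^ (s - r)) w.2.1 = phi (F.T1 s w'.1 % 2 ^ (s - r)) w'.2.1 := by
    have hh : (phi (F.T1 s w'.1 % 2 ^ (s - r)) w.2.1 * 2 ^ (J - s) + w.2.2) / 2 ^ (J - s) =
        (phi (F.T1 s w'.1 % 2 ^ (s - r)) w'.2.1 * 2 ^ (J - s) + w'.2.2) / 2 ^ (J - s) := by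
      rw [g4]
    rw [Nat.mul_comm, Nat.mul_add_div (by positivity), Nat.div_eq_of_lt k1, add_zero,
      Nat.mul_comm _ (2 ^ (J - s)), Nat.mul_add_div (by positivity), Nat.div_eq_of_lt k2,
      add_zero] at hh
    exact hh
  have g6 := phi_inj g5
  rw [g5] at g4
  have g7 := Nat.add_left_cancel g4
  exact Prod.ext (Fin.ext g6) (Fin.ext g7)

/-- The new time is uniform beyond `r`. -/
lemma fill_Lv (F : Fam m J) {r s : ℕ} (hL : r + 3 ≤ s) (hs : s ≤ J) :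
    Lv (fill F hL hs) r J (2 * Real.log 2) := by
  have := FE_nonempty (J := J) hL
  have hq : ∀ w, 0 ≤ sd F.p (FE r s J) w := (sd_isLaw F.isLaw).nonneg
  have h1 := sd_CH_unif (E := FE r s J) F.isLaw (fun ω : F.Ω => ω)
  have h2 : CH (sd F.p (FE r s J)) (fun w => w.2) (fun w : F.Ω × FE r s J => w.1) ≤
      CH (sd F.p (FE r s J)) ((fill F hL hs).T1 J) (fun w : F.Ω × FE r s J => w.1) := by
    refine CH_mono_left hq ?_
    intro w w' _ _ h
    have g1 : (fill F hL hs).T1 J w = (fill F hL hs).T1 J w' := (Prod.ext_iff.mp h).1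
    have g2 : w.1 = w'.1 := (Prod.ext_iff.mp h).2
    have g3 : Tf F r s w = Tf F r s w' :=
      (fill_T1J F hL hs w).symm.trans (g1.trans (fill_T1J F hL hs w'))
    exact seed_det F (by rw [g2]) (by rw [g2]) g3
  have h3 : CH (sd F.p (FE r s J)) ((fill F hL hs).T1 J) (fun w : F.Ω × FE r s J => w.1) ≤
      CH (sd F.p (FE r s J)) ((fill F hL hs).T1 J)
        (fun w => ((fill F hL hs).T1 r w, ((fill F hL hs).l w, (fill F hL hs).Z w))) := by
    refine CH_mono_cond hq ?_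
    intro w w' _ _ h
    have g2 : w.1 = w'.1 := h
    refine Prod.ext ?_ (Prod.ext ?_ ?_)
    · refine (fill_T1 F hL hs le_rfl w).trans (Eq.trans ?_ (fill_T1 F hL hs le_rfl w').symm)
      rw [g2]
    · change (F.u w.1, F.d w.1) = (F.u w'.1, F.d w'.1)
      rw [g2]
    · change F.Z w.1 = F.Z w'.1
      rw [g2]
  rw [h1] at h2
  refine le_trans ?_ (h2.trans h3)
  have h4 : Fintype.card (FE r s J) = (2 ^ (s - r) - 3) * 2 ^ (J - s) := by
    rw [Fintype.card_prod, Fintype.card_fin, Fintype.card_fin]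
  have h5 := pow_ge hL
  have h6 : ((Fintype.card (FE r s J) : ℕ) : ℝ) = ((2 : ℝ) ^ (s - r) - 3) * 2 ^ (J - s) := by
    rw [h4]
    push_cast [Nat.cast_sub (show 3 ≤ 2 ^ (s - r) by omega)]
    ring
  rw [h6]
  have h7 : (8 : ℝ) ≤ 2 ^ (s - r) := by exact_mod_cast h5
  have h8 : (2 : ℝ) ^ (J - r) / 4 ≤ ((2 : ℝ) ^ (s - r) - 3) * 2 ^ (J - s) := by
    have e : (2 : ℝ) ^ (J - r) = 2 ^ (s - r) * 2 ^ (J - s) := by
      rw [← pow_add]
      congr 1
      omega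
    rw [e]
    have : (0 : ℝ) < 2 ^ (J - s) := by positivity
    nlinarith
  have h9 := Real.log_le_log (by positivity) h8
  rw [Real.log_div (by positivity) (by norm_num), Real.log_pow,
    show (4 : ℝ) = 2 ^ 2 by norm_num, Real.log_pow] at h9
  push_cast at h9
  rw [Nat.cast_sub (by omega : r ≤ J)] at h9
  linarith

end Pool.KMX
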