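import Pool.Agent.H15.KMAX.FIL

/-!
# The filling lemma: the entropy of the new position
-/

set_option autoImplicit false

namespace Pool.KMX

open Finset Real
open Pool.Agent.H49.Ent Pool.Agent.H32.Dense Pool.STK Pool.KA

variable {m J : ℕ}

lemma T1J_eq (F : Fam m J) (ω : F.Ω) : F.T1 J ω = F.T ω := by
  unfold Fam.T1
  rw [Nat.sub_self, pow_zero, Nat.div_one]

/-- The time condition for the windows. -/
lemma wfil_Tm (F : Fam m J) {r s : ℕ} (hL : r + 3 ≤ s) (hs : s ≤ J) {e : ℝ} (h : Lv F s J e) :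
    (wfil F hL hs).Tm e := by
  have := FE_nonempty (J := J) hL
  have hq : ∀ w, 0 ≤ sd F.p (FE r s J) w := (sd_isLaw F.isLaw).nonneg
  unfold Lv at h
  unfold Fam.Tm
  have h1 := sd_CH_seed (E := FE r s J) F.isLaw (F.T1 J)
    (fun ω => (F.T1 s ω, (F.l ω, F.Z ω)))
  have h2 : CH (sd F.p (FE r s J)) (fun w => F.T1 J w.1)
        (fun w => ((F.T1 s w.1, (F.l w.1, F.Z w.1)), w.2)) ≤
      CH (sd F.p (FE r s J)) (fun w => F.T w.1 % 2 ^ (J - s))
        (fun w => ((F.T1 s w.1, (F.l w.1, F.Z w.1)), w.2)) := by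
    refine CH_mono_left hq ?_
    intro w w' _ _ h
    simp only [Prod.mk.injEq] at h
    have g := Win.T_det F s h.2.1.1 h.1
    show F.T1 J w.1 = F.T1 J w'.1
    rw [T1J_eq, T1J_eq, g]
  have h3 : CH (sd F.p (FE r s J)) (fun w => F.T w.1 % 2 ^ (J - s))
        (fun w => ((F.T1 s w.1, (F.l w.1, F.Z w.1)), w.2)) ≤
      CH (sd F.p (FE r s J)) (fun w => F.T w.1 % 2 ^ (J - s))
        (fun w : F.Ω × FE r s J => ((wfil F hL hs).l w, (wfil F hL hs).Z w)) := by
    refine CH_mono_cond hq ?_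
    intro w w' _ _ h
    simp only [Prod.mk.injEq, Fam.l] at h
    obtain ⟨⟨h1, ⟨hu, hd⟩, hZ⟩, h2⟩ := h
    have hx := Win.x1_det F s hu hd h1
    show (((fun i => Int.fract (2 ^ s * F.x1 s w.1 i)), F.d w.1), (F.c s w.1, w.2)) =
      (((fun i => Int.fract (2 ^ s * F.x1 s w'.1 i)), F.d w'.1), (F.c s w'.1, w'.2))
    unfold Fam.c
    rw [hx, hd, h1, hZ, h2]
  have c2 : ((J - s : ℕ) : ℝ) = (J : ℝ) - s := by rw [Nat.cast_sub hs]
  rw [c2]
  have h4 : CH (sd F.p (FE r s J)) (fun w => F.T w.1 % 2 ^ (J - s))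
      (fun w : F.Ω × FE r s J => ((wfil F hL hs).l w, (wfil F hL hs).Z w)) =
      CH (wfil F hL hs).p (wfil F hL hs).T
        (fun ω => ((wfil F hL hs).l ω, (wfil F hL hs).Z ω)) := rfl
  rw [← h4]
  linarith

/-- The position in the windows. -/
lemma wfil_X (F : Fam m J) {r s : ℕ} (hL : r + 3 ≤ s) (hs : s ≤ J) :
    CH (wfil F hL hs).p ((wfil F hL hs).X (J - s)) (wfil F hL hs).W ≤
      CH F.p (F.X J) (fun ω => (F.T ω, F.c s ω)) := by
  have := FE_nonempty (J := J) hL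
  have hq : ∀ w, 0 ≤ sd F.p (FE r s J) w := (sd_isLaw F.isLaw).nonneg
  have eX : ∀ (w : F.Ω × FE r s J) (i : Fin m), (wfil F hL hs).X (J - s) w i =
      F.X J w.1 i - 2 ^ (J - s) * fl s (F.x1 s w.1) i := by
    intro w i
    have h := Win.win_X F s hs (J - s) w.1 i
    rw [Nat.sub_add_cancel hs] at h
    exact h
  have h1 : CH (sd F.p (FE r s J)) (fun w : F.Ω × FE r s J => (wfil F hL hs).X (J - s) w)
        (fun w : F.Ω × FE r s J => (wfil F hL hs).W w) ≤
      CH (sd F.p (FE r s J)) (fun w => F.X J w.1)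
        (fun w : F.Ω × FE r s J => (wfil F hL hs).W w) := by
    refine CH_mono_left hq ?_
    intro w w' _ _ h
    have g1 : F.X J w.1 = F.X J w'.1 := (Prod.ext_iff.mp h).1
    have g2 : (wfil F hL hs).W w = (wfil F hL hs).W w' := (Prod.ext_iff.mp h).2
    have g3 : F.c s w.1 = F.c s w'.1 := (Prod.ext_iff.mp (Prod.ext_iff.mp g2).2).1
    have g4 : fl s (F.x1 s w.1) = fl s (F.x1 s w'.1) :=
      (Prod.ext_iff.mp (Prod.ext_iff.mp g3).1).2
    show (wfil F hL hs).X (J - s) w = (wfil F hL hs).X (J - s) w'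
    funext i
    rw [eX w i, eX w' i, g1, g4]
  have h2 : CH (sd F.p (FE r s J)) (fun w => F.X J w.1)
        (fun w : F.Ω × FE r s J => (wfil F hL hs).W w) ≤
      CH (sd F.p (FE r s J)) (fun w => F.X J w.1) (fun w => ((F.T w.1, F.c s w.1), w.2)) := by
    refine CH_mono_cond hq ?_
    intro w w' _ _ h
    have h' : (F.T w.1 % 2 ^ (J - s), (F.c s w.1, w.2)) =
      (F.T w'.1 % 2 ^ (J - s), (F.c s w'.1, w'.2)) := h
    simp only [Prod.mk.injEq] at h'
    obtain ⟨h1, h2, h3⟩ := h'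
    have g2 : F.T1 s w.1 = F.T1 s w'.1 := (Prod.ext_iff.mp (Prod.ext_iff.mp h2).1).1
    have g := Win.T_det F s g2 h1
    show ((F.T w.1, F.c s w.1), w.2) = ((F.T w'.1, F.c s w'.1), w'.2)
    rw [g, h2, h3]
  have h3 := sd_CH_seed (E := FE r s J) F.isLaw (F.X J) (fun ω => (F.T ω, F.c s ω))
  rw [← h3]
  exact h1.trans h2

/-- The window inequality. -/
theorem wfil_le (hK : PKPz m) : ∀ ε > 0, ∃ θ > 0, ∃ C ≥ 0, ∀ (J : ℕ) (F : Fam m J) (r s : ℕ)
    (hL : r + 3 ≤ s) (hs : s ≤ J), Lv F s J (θ * J) →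
      CH (wfil F hL hs).p (PDz (wfil F hL hs) (kp r s J) (J - s)) (wfil F hL hs).Z ≤
        CH F.p (F.X J) (fun ω => (F.T ω, F.c s ω)) + ε * J + C := by
  intro ε hε
  obtain ⟨θ₁, hθ₁, C₁, hC₁, h⟩ := hK (ε / 2) (by positivity)
  obtain ⟨c, hc, hc'⟩ : ∃ c : ℝ, 0 < c ∧ m * (c * Real.log 2) ≤ ε / 2 := by
    refine ⟨ε / (2 * (m + 1)), by positivity, ?_⟩
    have h1 : Real.log 2 ≤ 1 := by linarith [Real.log_two_lt_d9]
    have h2 : (0 : ℝ) < Real.log 2 := Real.log_pos (by norm_num)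
    calc (m : ℝ) * (ε / (2 * (m + 1)) * Real.log 2) ≤ (m + 1) * (ε / (2 * (m + 1)) * 1) := by
          apply mul_le_mul (by linarith) _ (by positivity) (by positivity)
          exact mul_le_mul_of_nonneg_left h1 (by positivity)
      _ = ε / 2 := by
          field_simp
  have hl11 : 0 ≤ Real.log 11 := Real.log_nonneg (by norm_num)
  refine ⟨c * θ₁, by positivity, C₁ + m * Real.log 11, by positivity, ?_⟩
  intro J F r s hL hs hT
  have hJs : ((J - s : ℕ) : ℝ) ≤ J := by exact_mod_cast Nat.sub_le J s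
  have hu : ∀ ω i, |(wfil F hL hs).u ω i| ≤ 1 := by
    intro ω i
    change |Int.fract _| ≤ 1
    rw [abs_of_nonneg (Int.fract_nonneg _)]
    exact (Int.fract_lt_one _).le
  rcases le_total (c * J) ((J - s : ℕ) : ℝ) with hJ | hJ
  · have h1 := wfil_Tm F hL hs hT
    have h2 : (wfil F hL hs).Tm (θ₁ * ((J - s : ℕ) : ℝ)) := by
      unfold Fam.Tm at h1 ⊢
      have : c * θ₁ * J ≤ θ₁ * ((J - s : ℕ) : ℝ) := by
        calc c * θ₁ * J = θ₁ * (c * J) := by ring
          _ ≤ θ₁ * ((J - s : ℕ) : ℝ) := mul_le_mul_of_nonneg_left hJ hθ₁.le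
      linarith
    have h3 := h (J - s) (wfil F hL hs) h2 hu (kp r s J) kp_ge kp_le
    have h4 := wfil_X F hL hs
    have h5 : ε / 2 * ((J - s : ℕ) : ℝ) ≤ ε * J := by
      have : 0 ≤ ((J - s : ℕ) : ℝ) := by positivity
      nlinarith
    have h6 : 0 ≤ (m : ℝ) * Real.log 11 := by positivity
    linarith
  · have h1 := CH_PD_trivz (wfil F hL hs) hu (κ := kp r s J) kp_ge kp_le
    have h2 := CH_nonneg F.isLaw.nonneg (F.X J) (fun ω => (F.T ω, F.c s ω))
    have h3 : Real.log (2 * (4 * 2 ^ (J - s) + 1) + 1) ≤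
        ((J - s : ℕ) : ℝ) * Real.log 2 + Real.log 11 := by
      rw [← Real.log_pow, ← Real.log_mul (by positivity) (by norm_num)]
      apply Real.log_le_log (by positivity)
      have : (1 : ℝ) ≤ 2 ^ (J - s) := one_le_pow₀ (by norm_num)
      linarith
    have h4 : (m : ℝ) * Real.log (2 * (4 * 2 ^ (J - s) + 1) + 1) ≤
        m * (c * J * Real.log 2 + Real.log 11) := by
      apply mul_le_mul_of_nonneg_left _ (by positivity)
      have : ((J - s : ℕ) : ℝ) * Real.log 2 ≤ c * J * Real.log 2 :=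
        mul_le_mul_of_nonneg_right hJ (Real.log_nonneg (by norm_num))
      linarith
    have h5 : (m : ℝ) * (c * J * Real.log 2 + Real.log 11) =
        m * (c * Real.log 2) * J + m * Real.log 11 := by ring
    have h6 : (m : ℝ) * (c * Real.log 2) * J ≤ ε / 2 * J :=
      mul_le_mul_of_nonneg_right hc' (by positivity)
    have h7 : 0 ≤ ε / 2 * J := by positivity
    linarith

/-- The new position, in terms of the windows. -/
lemma fill_pos (F : Fam m J) {r s : ℕ} (hL : r + 3 ≤ s) (hs : s ≤ J) :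
    CH (sd F.p (FE r s J)) (fun w : F.Ω × FE r s J => (fill F hL hs).X J w)
        (fun w => (Tf F r s w, (F.c s w.1, F.Z w.1))) ≤
      CH (wfil F hL hs).p (PDz (wfil F hL hs) (kp r s J) (J - s)) (wfil F hL hs).Z +
        m * (((s : ℝ) - r) * Real.log 2 + Real.log 5) := by
  have := FE_nonempty (J := J) hL
  have hL' := (sd_isLaw (E := FE r s J) F.isLaw)
  have hq : ∀ w, 0 ≤ sd F.p (FE r s J) w := hL'.nonneg
  have h1 : CH (sd F.p (FE r s J)) (fun w : F.Ω × FE r s J => (fill F hL hs).X J w)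
        (fun w => (Tf F r s w, (F.c s w.1, F.Z w.1))) ≤
      CH (sd F.p (FE r s J)) (fun w : F.Ω × FE r s J => (fill F hL hs).X J w)
        (fun w => (F.c s w.1, w.2)) := by
    refine CH_mono_cond hq ?_
    intro w w' _ _ h
    simp only [Prod.mk.injEq] at h
    obtain ⟨h1, h2, _⟩ := h
    have g2 : F.T1 s w.1 = F.T1 s w'.1 := (Prod.ext_iff.mp (Prod.ext_iff.mp h2).1).1
    have g3 := Pool.K2S.Rows.T1_det F (by omega : r ≤ s) hs g2
    exact Prod.ext h2 (seed_det F g3 g2 h1)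
  have h2 := CH_le_add hq (fun w : F.Ω × FE r s J => (fill F hL hs).X J w)
    (fun w : F.Ω × FE r s J => PDz (wfil F hL hs) (kp r s J) (J - s) w)
    (fun w => (F.c s w.1, w.2))
  have h3 : CH (sd F.p (FE r s J)) (fun w : F.Ω × FE r s J => (fill F hL hs).X J w)
      (fun w : F.Ω × FE r s J => (PDz (wfil F hL hs) (kp r s J) (J - s) w, (F.c s w.1, w.2))) ≤
      m * Ex (sd F.p (FE r s J)) (fun _ => Real.log (2 * (2 ^ (s - r) + 1) + 1)) := by
    refine CH_le_vec hq hL'.sum_one _ _ (fun _ => 2 ^ (s - r) + 1) ?_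
    intro w w' _ _ h i
    have g1 : PDz (wfil F hL hs) (kp r s J) (J - s) w = PDz (wfil F hL hs) (kp r s J) (J - s) w' :=
      (Prod.ext_iff.mp h).1
    have g2 : F.c s w.1 = F.c s w'.1 := (Prod.ext_iff.mp (Prod.ext_iff.mp h).2).1
    have g3 : w.2 = w'.2 := (Prod.ext_iff.mp (Prod.ext_iff.mp h).2).2
    have g4 : fl s (F.x1 s w.1) = fl s (F.x1 s w'.1) :=
      (Prod.ext_iff.mp (Prod.ext_iff.mp g2).1).2
    have g5 : ⌊2 ^ (J - s) * (F.d w.1 i + kp r s J (F.c s w.1, w.2) *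
          Int.fract (2 ^ s * F.x1 s w.1 i))⌋ =
        ⌊2 ^ (J - s) * (F.d w'.1 i + kp r s J (F.c s w'.1, w'.2) *
          Int.fract (2 ^ s * F.x1 s w'.1 i))⌋ := congrFun g1 i
    have g6 := abs_le.1 (floor_eq_near' g5)
    have g7 := ts_abs (F.c s w'.1, w'.2)
    rw [fill_X F hL hs w i, fill_X F hL hs w' i, g4, g2, g3, add_sub_add_left_eq_sub]
    rw [g2, g3] at g6
    refine floor_diff' (L := 2 ^ (s - r)) ?_
    rw [← mul_sub, abs_mul]
    calc _ ≤ (2 : ℝ) ^ (s - r) * 1 := mul_le_mul g7 (abs_le.2 g6) (abs_nonneg _) (by positivity)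
      _ = 2 ^ (s - r) := mul_one _
  rw [Ex_const hL'.sum_one] at h3
  have h4 : Real.log (2 * ((2 : ℝ) ^ (s - r) + 1) + 1) ≤
      ((s : ℝ) - r) * Real.log 2 + Real.log 5 := by
    rw [← Nat.cast_sub (by omega : r ≤ s), ← Real.log_pow,
      ← Real.log_mul (by positivity) (by norm_num)]
    apply Real.log_le_log (by positivity)
    have : (1 : ℝ) ≤ 2 ^ (s - r) := one_le_pow₀ (by norm_num)
    linarith
  have h5 : (m : ℝ) * Real.log (2 * ((2 : ℝ) ^ (s - r) + 1) + 1) ≤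
      m * (((s : ℝ) - r) * Real.log 2 + Real.log 5) :=
    mul_le_mul_of_nonneg_left h4 (by positivity)
  have h6 : CH (sd F.p (FE r s J))
      (fun w : F.Ω × FE r s J => PDz (wfil F hL hs) (kp r s J) (J - s) w)
      (fun w => (F.c s w.1, w.2)) =
      CH (wfil F hL hs).p (PDz (wfil F hL hs) (kp r s J) (J - s)) (wfil F hL hs).Z := rfl
  rw [h6] at h2
  linarith

/-- Upper bound for the space-time entropy of the filled family. -/
lemma fill_up (F : Fam m J) {r s : ℕ} (hL : r + 3 ≤ s) (hs : s ≤ J) :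
    CH (fill F hL hs).p (fun ω => ((fill F hL hs).X J ω, (fill F hL hs).T ω)) (fill F hL hs).Z ≤
      CH F.p (F.c s) F.Z + ((J : ℝ) - r) * Real.log 2 +
      (CH (wfil F hL hs).p (PDz (wfil F hL hs) (kp r s J) (J - s)) (wfil F hL hs).Z +
        m * (((s : ℝ) - r) * Real.log 2 + Real.log 5)) := by
  have := FE_nonempty (J := J) hL
  have hL' := (sd_isLaw (E := FE r s J) F.isLaw)
  have hq : ∀ w, 0 ≤ sd F.p (FE r s J) w := hL'.nonneg
  have h1 := CH_le_add hq (fun w : F.Ω × FE r s J => ((fill F hL hs).X J w, Tf F r s w))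
    (fun w => F.c s w.1) (fun w => F.Z w.1)
  have h2 := CH_chain hq (fun w : F.Ω × FE r s J => (fill F hL hs).X J w)
    (fun w => Tf F r s w) (fun w => (F.c s w.1, F.Z w.1))
  have h3 : CH (sd F.p (FE r s J)) (fun w => Tf F r s w) (fun w => (F.c s w.1, F.Z w.1)) ≤
      ((J - r : ℕ) : ℝ) * Real.log 2 := by
    refine le_trans ?_ (TRC.CH_div hL' (fun w => Tf F r s w)
      (fun w => (F.c s w.1, F.Z w.1)) (J - r))
    refine CH_mono_cond hq ?_
    intro w w' _ _ h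
    have g1 : F.c s w.1 = F.c s w'.1 := (Prod.ext_iff.mp h).1
    have g2 : F.T1 s w.1 = F.T1 s w'.1 := (Prod.ext_iff.mp (Prod.ext_iff.mp g1).1).1
    have g3 := Pool.K2S.Rows.T1_det F (by omega : r ≤ s) hs g2
    refine Prod.ext ?_ h
    show Tf F r s w / 2 ^ (J - r) = Tf F r s w' / 2 ^ (J - r)
    rw [Tf_div F hL hs w, Tf_div F hL hs w', g3]
  have h4 := fill_pos F hL hs
  have h5 := sd_CH_fst (p := F.p) (E := FE r s J) (F.c s) F.Z
  rw [Nat.cast_sub (by omega : r ≤ J)] at h3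
  have h6 : CH (fill F hL hs).p (fun ω => ((fill F hL hs).X J ω, (fill F hL hs).T ω))
      (fill F hL hs).Z = CH (sd F.p (FE r s J))
        (fun w : F.Ω × FE r s J => ((fill F hL hs).X J w, Tf F r s w)) (fun w => F.Z w.1) := rfl
  rw [h6]
  linarith

/-- Lower bound for the space-time entropy of the old family. -/
lemma old_low (F : Fam m J) {s : ℕ} (hs : s ≤ J) {e : ℝ} (h : Lv F s J e) :
    CH F.p (F.c s) F.Z + ((J : ℝ) - s) * Real.log 2 +
      CH F.p (F.X J) (fun ω => (F.T ω, F.c s ω)) ≤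
    CH F.p (fun ω => (F.X J ω, F.T ω)) F.Z + e + cc m := by
  have hp := F.isLaw.nonneg
  have h1 := CH_chain hp (F.c s) (fun ω => (F.X J ω, F.T ω)) F.Z
  have h2 := CH_chain hp (fun ω => (F.X J ω, F.T ω)) (F.c s) F.Z
  have h3 : CH F.p (fun ω => (F.c s ω, (F.X J ω, F.T ω))) F.Z =
      CH F.p (fun ω => ((F.X J ω, F.T ω), F.c s ω)) F.Z := by
    refine CH_congr hp ?_ ?_ ?_ ?_
    · intro ω ω' _ _ h
      simp only [Prod.mk.injEq] at h ⊢
      tauto
    · intro ω ω' _ _ h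
      simp only [Prod.mk.injEq] at h ⊢
      tauto
    · exact fun _ _ _ _ h => h
    · exact fun _ _ _ _ h => h
  have h4 : CH F.p (F.c s) (fun ω => ((F.X J ω, F.T ω), F.Z ω)) ≤ cc m := by
    refine le_trans ?_ (Pool.K2S.Rows.CH_c_pt F hs)
    refine CH_mono_cond hp ?_
    intro ω ω' _ _ h
    have g := Prod.ext_iff.mp h
    have g1 := Prod.ext_iff.mp g.1
    exact Prod.ext g1.1 (Prod.ext g1.2 g.2)
  have h5 := CH_chain hp (F.X J) F.T (fun ω => (F.c s ω, F.Z ω))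
  have h6 : CH F.p (F.X J) (fun ω => (F.T ω, F.c s ω)) ≤
      CH F.p (F.X J) (fun ω => (F.T ω, (F.c s ω, F.Z ω))) := by
    refine CH_mono_cond hp ?_
    intro ω ω' _ _ h
    have g := Prod.ext_iff.mp h
    exact Prod.ext g.1 (Prod.ext g.2 (Prod.ext_iff.mp g.2).2)
  have h7 : CH F.p (F.T1 J) (fun ω => (F.T1 s ω, (F.l ω, F.Z ω))) ≤
      CH F.p F.T (fun ω => (F.c s ω, F.Z ω)) := by
    have e1 : CH F.p (F.T1 J) (fun ω => (F.T1 s ω, (F.l ω, F.Z ω))) ≤
        CH F.p F.T (fun ω => (F.T1 s ω, (F.l ω, F.Z ω))) := by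
      refine CH_mono_left hp ?_
      intro ω ω' _ _ h
      show F.T1 J ω = F.T1 J ω'
      rw [T1J_eq, T1J_eq]
      exact (Prod.ext_iff.mp h).1
    refine e1.trans (CH_mono_cond hp ?_)
    intro ω ω' _ _ h
    simp only [Prod.mk.injEq, Fam.l] at h
    obtain ⟨h1, ⟨hu, hd⟩, hZ⟩ := h
    have hx := Win.x1_det F s hu hd h1
    show (F.c s ω, F.Z ω) = (F.c s ω', F.Z ω')
    unfold Fam.c
    rw [hx, h1, hZ]
  unfold Lv at h
  linarith

/-- The filling lemma for runs of length at least three. -/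
theorem fill_le (hK : PKPz m) : ∀ ε > 0, ∃ θ > 0, ∃ C ≥ 0, ∀ (J : ℕ) (F : Fam m J) (r s : ℕ)
    (hL : r + 3 ≤ s) (hs : s ≤ J), Lv F s J (θ * J) →
      CH (fill F hL hs).p (fun ω => ((fill F hL hs).X J ω, (fill F hL hs).T ω))
          (fill F hL hs).Z ≤
        CH F.p (fun ω => (F.X J ω, F.T ω)) F.Z + (m + 1) * (((s : ℝ) - r) * Real.log 2) +
          ε * J + C := by
  intro ε hε
  obtain ⟨θ, hθ, C, hC, h⟩ := wfil_le hK (ε / 2) (by positivity)
  have hcc : 0 ≤ cc m := by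
    unfold cc
    positivity
  have h5 : 0 ≤ Real.log 5 := Real.log_nonneg (by norm_num)
  refine ⟨min θ (ε / 2), lt_min hθ (by positivity), C + cc m + m * Real.log 5, by positivity, ?_⟩
  intro J F r s hL hs hT
  have a1 : min θ (ε / 2) * J ≤ θ * J := mul_le_mul_of_nonneg_right (min_le_left _ _)
    (by positivity)
  have a2 : min θ (ε / 2) * J ≤ ε / 2 * J := mul_le_mul_of_nonneg_right (min_le_right _ _)
    (by positivity)
  have hT1 : Lv F s J (θ * J) := by
    unfold Lv at hT ⊢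
    linarith
  have h1 := h J F r s hL hs hT1
  have h2 := fill_up F hL hs
  have h3 := old_low F hs hT
  linarith

end Pool.KMX
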