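import Pool.Agent.H15.KMAX.FILb
import Pool.Agent.H73.KMAX.MNR

/-!
# Families whose times have a bounded number of runs of dead digits

`K'(m)` implies the sharp inequality for families of lines whose times are live, except on a
bounded number of runs of digits on which nothing is assumed.
-/

set_option autoImplicit false

namespace Pool.KMX

open Finset Real
open Pool.Agent.H49.Ent Pool.Agent.H32.Dense Pool.STK Pool.KA

variable {m J : ℕ}

/-- Longer blocks. -/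
lemma Lv_ext (F : Fam m J) {a b c : ℕ} (hbc : b ≤ c) (hab : a ≤ b) (hc : c ≤ J) {e e' : ℝ}
    (h1 : Lv F a b e) (h2 : Lv F b c e') : Lv F a c (e + e') := by
  have hp := F.isLaw.nonneg
  unfold Lv at h1 h2 ⊢
  have k1 := CH_chain hp (F.T1 c) (F.T1 b) (fun ω => (F.T1 a ω, (F.l ω, F.Z ω)))
  have k2 : CH F.p (fun ω => (F.T1 c ω, F.T1 b ω)) (fun ω => (F.T1 a ω, (F.l ω, F.Z ω))) =
      CH F.p (F.T1 c) (fun ω => (F.T1 a ω, (F.l ω, F.Z ω))) := by
    refine CH_congr hp ?_ ?_ ?_ ?_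
    · intro ω ω' _ _ h
      exact (Prod.ext_iff.mp (Prod.ext_iff.mp h).1).1
    · intro ω ω' _ _ h
      have g := (Prod.ext_iff.mp h).1
      exact Prod.ext g (Pool.K2S.Rows.T1_det F hbc hc g)
    · exact fun _ _ _ _ h => h
    · exact fun _ _ _ _ h => h
  have k3 : CH F.p (F.T1 c) (fun ω => (F.T1 b ω, (F.l ω, F.Z ω))) ≤
      CH F.p (F.T1 c) (fun ω => (F.T1 b ω, (F.T1 a ω, (F.l ω, F.Z ω)))) := by
    refine CH_mono_cond hp ?_
    intro ω ω' _ _ h
    simp only [Prod.mk.injEq] at h ⊢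
    exact ⟨h.1, Pool.K2S.Rows.T1_det F hab (hbc.trans hc) h.1, h.2⟩
  linarith

/-- A short dead run can be added to a live block. -/
lemma Lv_short (F : Fam m J) {r s b : ℕ} (hrs : r ≤ s) (hs : s ≤ r + 2) (hb : s ≤ b) (hbJ : b ≤ J)
    {e : ℝ} (h : Lv F s b e) : Lv F r b (e + 2 * Real.log 2) := by
  have hp := F.isLaw.nonneg
  unfold Lv at h ⊢
  have k3 : CH F.p (F.T1 b) (fun ω => (F.T1 s ω, (F.l ω, F.Z ω))) ≤
      CH F.p (F.T1 b) (fun ω => (F.T1 r ω, (F.l ω, F.Z ω))) := by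
    refine CH_mono_cond hp ?_
    intro ω ω' _ _ h
    simp only [Prod.mk.injEq] at h ⊢
    exact ⟨Pool.K2S.Rows.T1_det F hrs (hb.trans hbJ) h.1, h.2⟩
  have k4 : (s : ℝ) ≤ r + 2 := by exact_mod_cast hs
  have k5 : 0 < Real.log 2 := Real.log_pos (by norm_num)
  nlinarith

/-- The filled family has the same blocks below `r`. -/
lemma fill_Lv_old (F : Fam m J) {r s : ℕ} (hL : r + 3 ≤ s) (hs : s ≤ J) {a b : ℕ} (ha : a ≤ r)
    (hb : b ≤ r) {e : ℝ} (h : Lv F a b e) : Lv (fill F hL hs) a b e := by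
  have := FE_nonempty (J := J) hL
  unfold Lv at h ⊢
  have h1 := sd_CH_fst (p := F.p) (E := FE r s J) (F.T1 b) (fun ω => (F.T1 a ω, (F.l ω, F.Z ω)))
  have h2 : CH (fill F hL hs).p ((fill F hL hs).T1 b)
      (fun ω => ((fill F hL hs).T1 a ω, ((fill F hL hs).l ω, (fill F hL hs).Z ω))) =
      CH (sd F.p (FE r s J)) (fun w => F.T1 b w.1) (fun w => (F.T1 a w.1, (F.l w.1, F.Z w.1))) := by
    have e1 : (fun w : F.Ω × FE r s J => (fill F hL hs).T1 b w) = fun w => F.T1 b w.1 :=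
      funext fun w => fill_T1 F hL hs hb w
    have e2 : (fun w : F.Ω × FE r s J => ((fill F hL hs).T1 a w, ((F.l w.1), F.Z w.1))) =
        fun w => (F.T1 a w.1, (F.l w.1, F.Z w.1)) :=
      funext fun w => by rw [fill_T1 F hL hs ha w]
    have e3 : CH (fill F hL hs).p ((fill F hL hs).T1 b)
      (fun ω => ((fill F hL hs).T1 a ω, ((fill F hL hs).l ω, (fill F hL hs).Z ω))) =
      CH (sd F.p (FE r s J)) (fun w : F.Ω × FE r s J => (fill F hL hs).T1 b w)
        (fun w : F.Ω × FE r s J => ((fill F hL hs).T1 a w, ((F.l w.1), F.Z w.1))) := rfl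
    rw [e3, e1, e2]
  rw [h2, h1]
  exact h

/-- The filled family has the same directions. -/
lemma fill_D (F : Fam m J) {r s : ℕ} (hL : r + 3 ≤ s) (hs : s ≤ J) :
    CH (fill F hL hs).p ((fill F hL hs).D J) (fill F hL hs).Z = CH F.p (F.D J) F.Z := by
  have := FE_nonempty (J := J) hL
  exact sd_CH_fst (p := F.p) (E := FE r s J) (F.D J) F.Z

/-- **The filling lemma.** -/
theorem fil (hK : KP m) : ∀ ε > 0, ∃ θ > 0, ∃ C ≥ 0, ∀ (J : ℕ) (F : Fam m J) (r s : ℕ),
    r ≤ s → s ≤ J → ∀ e : ℝ, 0 ≤ e → e ≤ θ * J → Lv F s J e → ∃ F' : Fam m J,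
      CH F'.p (F'.D J) F'.Z = CH F.p (F.D J) F.Z ∧
      (∀ a b : ℕ, a ≤ b → b ≤ r → ∀ e₁, Lv F a b e₁ → Lv F' a b e₁) ∧
      Lv F' r J (e + 2 * Real.log 2) ∧
      CH F'.p (fun ω => (F'.X J ω, F'.T ω)) F'.Z ≤
        CH F.p (fun ω => (F.X J ω, F.T ω)) F.Z + (m + 1) * (((s : ℝ) - r) * Real.log 2) +
          ε * J + C := by
  intro ε hε
  obtain ⟨θ, hθ, C, hC, h⟩ := fill_le (pkpz_of_kp hK) ε hε
  refine ⟨θ, hθ, C, hC, ?_⟩
  intro J F r s hrs hs e he he' hT'
  have hT : Lv F s J (θ * J) := by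
    unfold Lv at hT' ⊢
    linarith
  rcases Nat.lt_or_ge s (r + 3) with hL | hL
  · refine ⟨F, rfl, fun _ _ _ _ _ h => h, Lv_short F hrs (by omega) hs le_rfl hT', ?_⟩
    have h1 : (0 : ℝ) ≤ (s : ℝ) - r := by
      have : (r : ℝ) ≤ s := by exact_mod_cast hrs
      linarith
    have h2 : 0 < Real.log 2 := Real.log_pos (by norm_num)
    have h3 : 0 ≤ ((m : ℝ) + 1) * (((s : ℝ) - r) * Real.log 2) := by positivity
    have h4 : 0 ≤ ε * J := by positivity
    linarith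
  · refine ⟨fill F hL hs, fill_D F hL hs, ?_, ?_, h J F r s hL hs hT⟩
    · intro a b hab hb e₁ hl
      exact fill_Lv_old F hL hs (hab.trans hb) hb hl
    · have h1 := fill_Lv F hL hs
      unfold Lv at h1 ⊢
      linarith

/-- The inequality for families with `N` dead runs: the digits in `(s i, r i]` are live for
`i < N`, and those in `(s N, J]`; nothing is assumed on the digits in `(r i, s (i + 1)]`. -/
def MNRa (m N : ℕ) : Prop :=
  ∀ ε > 0, ∃ θ > 0, ∃ J₀ : ℕ, ∀ J ≥ J₀, ∀ F : Fam m J, ∀ s r : ℕ → ℕ, s 0 = 0 →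
    (∀ i < N, s i ≤ r i ∧ r i ≤ s (i + 1)) → s N ≤ J →
    (∀ i < N, Lv F (s i) (r i) (θ * J)) → Lv F (s N) J (θ * J) →
      CH F.p (F.D J) F.Z ≤ CH F.p (fun ω => (F.X J ω, F.T ω)) F.Z - J * Real.log 2 +
        (m + 1) * ((∑ i ∈ Finset.range N, ((s (i + 1) : ℝ) - r i)) * Real.log 2) + ε * J

lemma Lv_mono {F : Fam m J} {a b : ℕ} {e e' : ℝ} (h : Lv F a b e) (he : e ≤ e') :
    Lv F a b e' := by
  unfold Lv at h ⊢
  linarith

lemma mnra_zero (hK : KP m) : MNRa m 0 := by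
  intro ε hε
  obtain ⟨θ, hθ, J₀, h⟩ := hK (ε / 2) (by positivity)
  refine ⟨min θ (ε / 2), lt_min hθ (by positivity), J₀, ?_⟩
  intro J hJ F s r hs _ _ _ hT
  have hp := F.isLaw.nonneg
  have a1 : min θ (ε / 2) * J ≤ θ * J := mul_le_mul_of_nonneg_right (min_le_left _ _)
    (by positivity)
  have a2 : min θ (ε / 2) * J ≤ ε / 2 * J := mul_le_mul_of_nonneg_right (min_le_right _ _)
    (by positivity)
  have hTm : F.Tm (min θ (ε / 2) * J) := by
    unfold Fam.Tm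
    unfold Lv at hT
    rw [hs, Nat.cast_zero, sub_zero] at hT
    refine hT.trans ?_
    have e1 : CH F.p (F.T1 J) (fun ω => (F.T1 0 ω, (F.l ω, F.Z ω))) ≤
        CH F.p F.T (fun ω => (F.T1 0 ω, (F.l ω, F.Z ω))) := by
      refine CH_mono_left hp ?_
      intro ω ω' _ _ h
      show F.T1 J ω = F.T1 J ω'
      rw [T1J_eq, T1J_eq]
      exact (Prod.ext_iff.mp h).1
    refine e1.trans (CH_mono_cond hp ?_)
    intro ω ω' _ _ h
    exact (Prod.ext_iff.mp h).2
  have h1 : F.Tm (θ * J) := by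
    unfold Fam.Tm at hTm ⊢
    linarith
  have h2 := h J hJ F h1
  unfold Fam.V at h2
  rw [sub_self, zero_mul, mul_zero, sub_zero] at h2
  have h3 := CH_chain hp (F.X J) F.T F.Z
  have h4 : CH F.p F.T (fun ω => (F.l ω, F.Z ω)) ≤ CH F.p F.T F.Z := by
    refine CH_mono_cond hp ?_
    intro ω ω' _ _ h
    exact (Prod.ext_iff.mp h).2
  have h5 : CH F.p (F.X J) F.W = CH F.p (F.X J) (fun ω => (F.T ω, F.Z ω)) := rfl
  unfold Fam.Tm at hTm
  rw [Finset.range_zero, Finset.sum_empty, zero_mul, mul_zero]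
  linarith

/-- **`K'(m)` implies the inequality for families with a bounded number of dead runs.** -/
theorem mnra_of_kp (hK : KP m) (N : ℕ) : MNRa m N := by
  induction N with
  | zero => exact mnra_zero hK
  | succ N ih =>
    intro ε hε
    obtain ⟨θ₁, hθ₁, J₁, h₁⟩ := ih (ε / 2) (by positivity)
    obtain ⟨θ₂, hθ₂, C₂, hC₂, h₂⟩ := fil hK (ε / 4) (by positivity)
    obtain ⟨θ, hθ⟩ : ∃ θ, θ = min θ₂ (θ₁ / 4) := ⟨_, rfl⟩
    have hθ0 : 0 < θ := by rw [hθ]; exact lt_min hθ₂ (by positivity)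
    obtain ⟨J₂, hJ₂⟩ := exists_nat_ge (2 * Real.log 2 / (θ₁ / 4))
    obtain ⟨J₃, hJ₃⟩ := exists_nat_ge (C₂ / (ε / 4))
    refine ⟨θ, hθ0, max J₁ (max J₂ J₃), ?_⟩
    intro J hJ F s r hs hsr hsJ hLv hT
    have b1 : J₁ ≤ J := (le_max_left _ _).trans hJ
    have b2 : (J₂ : ℝ) ≤ J := by
      exact_mod_cast (le_max_left _ _).trans ((le_max_right _ _).trans hJ)
    have b3 : (J₃ : ℝ) ≤ J := by
      exact_mod_cast (le_max_right _ _).trans ((le_max_right _ _).trans hJ)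
    have c1 : 2 * Real.log 2 ≤ θ₁ / 4 * J := by
      rw [div_le_iff₀ (by positivity)] at hJ₂
      nlinarith
    have c2 : C₂ ≤ ε / 4 * J := by
      rw [div_le_iff₀ (by positivity)] at hJ₃
      nlinarith
    have c3 : θ * J ≤ θ₂ * J := by
      rw [hθ]
      exact mul_le_mul_of_nonneg_right (min_le_left _ _) (by positivity)
    have c4 : θ * J ≤ θ₁ / 4 * J := by
      rw [hθ]
      exact mul_le_mul_of_nonneg_right (min_le_right _ _) (by positivity)
    have d1 := hsr N (Nat.lt_succ_self N)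
    have d2 : r N ≤ J := d1.2.trans hsJ
    obtain ⟨F', e1, e2, e3, e4⟩ := h₂ J F (r N) (s (N + 1)) d1.2 hsJ (θ * J) (by positivity) c3 hT
    have key : ∀ j ≤ N, ∀ i < j, r i ≤ s j := by
      intro j
      induction j with
      | zero => intro _ i hi; omega
      | succ j ihj =>
        intro hj i hi
        have q := hsr j (by omega)
        rcases Nat.lt_succ_iff_lt_or_eq.1 hi with h | h
        · exact (ihj (by omega) i h).trans (q.1.trans q.2)
        · rw [h]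
          exact q.2
    have f1 : Lv F' (s N) J (θ₁ * J) := by
      have g1 := e2 (s N) (r N) d1.1 le_rfl (θ * J) (hLv N (Nat.lt_succ_self N))
      refine Lv_mono (Lv_ext F' d2 d1.1 le_rfl g1 e3) ?_
      have : 0 ≤ θ₁ / 4 * J := by positivity
      linarith
    have f2 : ∀ i < N, Lv F' (s i) (r i) (θ₁ * J) := by
      intro i hi
      refine Lv_mono (e2 (s i) (r i) (hsr i (by omega)).1 ((key N le_rfl i hi).trans d1.1) (θ * J)
        (hLv i (by omega))) ?_
      have : 0 ≤ θ₁ / 4 * J := by positivity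
      linarith
    have f3 := h₁ J b1 F' s r hs (fun i hi => hsr i (by omega)) (d1.1.trans d2) f2 f1
    rw [e1] at f3
    rw [Finset.sum_range_succ]
    have f4 : ((m : ℝ) + 1) * ((∑ i ∈ Finset.range N, ((s (i + 1) : ℝ) - r i) +
        ((s (N + 1) : ℝ) - r N)) * Real.log 2) =
        (m + 1) * ((∑ i ∈ Finset.range N, ((s (i + 1) : ℝ) - r i)) * Real.log 2) +
        (m + 1) * (((s (N + 1) : ℝ) - r N) * Real.log 2) := by ring
    rw [f4]
    linarith

/-- The two forms of the conditions on blocks. -/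
lemma Lv_iff (F : Fam m J) {a b : ℕ} {e : ℝ} : Lv F a b e ↔ LivB F a b e := by
  have hp := F.isLaw.nonneg
  have h : CH F.p (F.T1 b) (fun ω => (F.T1 a ω, (F.l ω, F.Z ω))) =
      CH F.p (F.T1 b) (fun ω => (F.l ω, F.Z ω, F.T1 a ω)) := by
    refine CH_congr hp ?_ ?_ ?_ ?_
    · exact fun _ _ _ _ h => (Prod.ext_iff.mp h).1
    · exact fun _ _ _ _ h => (Prod.ext_iff.mp h).1
    · intro ω ω' _ _ hh
      simp only [Prod.mk.injEq] at hh ⊢
      tauto
    · intro ω ω' _ _ hh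
      simp only [Prod.mk.injEq] at hh ⊢
      tauto
  unfold Lv LivB
  rw [h]

lemma Lv_iff' (F : Fam m J) {a : ℕ} {e : ℝ} : Lv F a J e ↔ Liv F a e := by
  rw [Lv_iff]
  have h : CH F.p (F.T1 J) (fun ω => (F.l ω, F.Z ω, F.T1 a ω)) =
      CH F.p F.T (fun ω => (F.l ω, F.Z ω, F.T1 a ω)) := by
    congr 1
    funext ω
    exact T1J_eq F ω
  unfold LivB Liv
  rw [h]

/-- **`K'(m)` implies the inequality for shadings with `N` dead runs.** -/
theorem mnr_thm (hK : KP m) (N : ℕ) : MNR m N := by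
  intro ε hε
  obtain ⟨θ, hθ, J₀, h⟩ := mnra_of_kp hK N ε hε
  refine ⟨θ, hθ, J₀, ?_⟩
  intro J hJ F r s hs hrs hsJ hL
  exact h J hJ F s (fun i => r (i + 1)) hs (fun i hi => ⟨(hrs i hi).1, (hrs i hi).2.1⟩) hsJ
    (fun i hi => (Lv_iff F).2 (hrs i hi).2.2) ((Lv_iff' F).2 hL)

end Pool.KMX


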