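import Pool.Agent.H15.KMAX.PKPDef
import Pool.Agent.H32.Dense.EntX

/-!
# The projective form of `K'(m)` follows from `K'(m)`

The projective map `(t, x) ↦ (t / (2 (1 - κ t)), x / (4 (1 - κ t)))` sends the line `u + t d` to
the line with position `u / 4` at time `0` and velocity `(d + κ u) / 2`.
-/

set_option autoImplicit false

namespace Pool.KMX

open Finset Real
open Pool.Agent.H49.Ent Pool.Agent.H32.Dense Pool.STK Pool.KA

variable {m J : ℕ}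

/-! ### Elementary facts -/

lemma floor_diff' {r r' L : ℝ} (h : |r - r'| ≤ L) : |((⌊r⌋ - ⌊r'⌋ : ℤ) : ℝ)| ≤ L + 1 := by
  have h1 := Int.floor_le r
  have h2 := Int.lt_floor_add_one r
  have h3 := Int.floor_le r'
  have h4 := Int.lt_floor_add_one r'
  have h5 := abs_le.1 h
  push_cast
  rw [abs_le]
  constructor <;> linarith [h5.1, h5.2]

lemma floor_eq_near' {r r' : ℝ} (h : ⌊r⌋ = ⌊r'⌋) : |r - r'| ≤ 1 := by
  have h1 := Int.floor_le r
  have h2 := Int.lt_floor_add_one r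
  have h3 := Int.floor_le r'
  have h4 := Int.lt_floor_add_one r'
  rw [h] at h1 h2
  rw [abs_le]
  constructor <;> linarith

lemma nfloor_eq_near {r r' : ℝ} (hr : 0 ≤ r) (hr' : 0 ≤ r') (h : ⌊r⌋₊ = ⌊r'⌋₊) :
    |r - r'| ≤ 1 := by
  have h1 := Nat.floor_le hr
  have h2 := Nat.lt_floor_add_one r
  have h3 := Nat.floor_le hr'
  have h4 := Nat.lt_floor_add_one r'
  rw [h] at h1 h2
  rw [abs_le]
  constructor <;> linarith

lemma key1 {t t' κ A B : ℝ} (hA : A ≠ 0) (hB : B ≠ 0) (eA : A = 1 - κ * t)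
    (eB : B = 1 - κ * t') : (t / (2 * A) - t' / (2 * B)) * (2 * (A * B)) = t - t' := by
  have e : (t / (2 * A) - t' / (2 * B)) * (2 * (A * B)) = t * B - t' * A := by
    field_simp
  rw [e, eA, eB]
  ring

lemma key2 {t κ A P u d n : ℝ} (hA : A ≠ 0) (hP : P ≠ 0) (eA : A = 1 - κ * t) :
    P * (u / 4 + n / P * ((d + κ * u) / 2)) - P * (u + t * d) / (4 * A) =
      (n - P * (t / (2 * A))) * ((d + κ * u) / 2) := by
  have e1 : P * (u / 4 + n / P * ((d + κ * u) / 2)) = P * u / 4 + n * ((d + κ * u) / 2) := by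
    field_simp
  have e2 : P * (u + t * d) / (4 * A) = P * u / 4 + P * (t * (d + κ * u)) / (4 * A) := by
    have : u + t * d = u * A + t * (d + κ * u) := by rw [eA]; ring
    rw [this, mul_add, add_div]
    congr 1
    field_simp
  rw [e1, e2]
  field_simp
  ring

lemma t_nonneg (F : Fam m J) (ω : F.Ω) : 0 ≤ F.t ω := by
  unfold Fam.t; positivity

lemma t_lt_one (F : Fam m J) (ω : F.Ω) : F.t ω < 1 := by
  unfold Fam.t
  rw [div_lt_one (by positivity)]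
  exact_mod_cast F.tim ω

/-- the denominator -/
lemma den_bd (F : Fam m J) {κ : ℝ} (h1 : -1 ≤ κ) (h2 : κ ≤ 1 / 2) (ω : F.Ω) :
    1 / 2 ≤ 1 - κ * F.t ω ∧ 1 - κ * F.t ω ≤ 2 := by
  have ht := t_nonneg F ω
  have ht' := t_lt_one F ω
  constructor <;> nlinarith

/-- the new time, as a real number -/
noncomputable def tau (F : Fam m J) (κ : ℝ) (ω : F.Ω) : ℝ := F.t ω / (2 * (1 - κ * F.t ω))

lemma tau_nonneg (F : Fam m J) {κ : ℝ} (h1 : -1 ≤ κ) (h2 : κ ≤ 1 / 2) (ω : F.Ω) :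
    0 ≤ tau F κ ω := by
  unfold tau
  have h := (den_bd F h1 h2 ω).1
  have ht := t_nonneg F ω
  positivity

lemma tau_lt_one (F : Fam m J) {κ : ℝ} (h1 : -1 ≤ κ) (h2 : κ ≤ 1 / 2) (ω : F.Ω) :
    tau F κ ω < 1 := by
  unfold tau
  have h := (den_bd F h1 h2 ω).1
  have ht := t_nonneg F ω
  have ht' := t_lt_one F ω
  rw [div_lt_one (by linarith)]
  nlinarith

/-- The image of a family under the projective map. -/
noncomputable def prj (F : Fam m J) (κ : ℝ) (h1 : -1 ≤ κ) (h2 : κ ≤ 1 / 2)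
    (hu : ∀ ω i, |F.u ω i| ≤ 1) : Fam m J where
  Ω := F.Ω
  ζ := F.ζ
  fin := F.fin
  p := F.p
  u := fun ω i => F.u ω i / 4
  d := fun ω i => (F.d ω i + κ * F.u ω i) / 2
  T := fun ω => ⌊2 ^ J * tau F κ ω⌋₊
  Z := F.Z
  isLaw := F.isLaw
  dir := fun ω i => by
    have a1 := abs_le.1 (F.dir ω i)
    have a2 := abs_le.1 (hu ω i)
    have a3 : |κ * F.u ω i| ≤ 1 := by
      rw [abs_mul]
      have : |κ| ≤ 1 := abs_le.2 ⟨h1, by linarith⟩
      have h4 := hu ω i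
      have h5 := abs_nonneg κ
      have h6 := abs_nonneg (F.u ω i)
      nlinarith
    have a4 := abs_le.1 a3
    rw [abs_le]
    constructor <;> linarith [a1.1, a1.2, a4.1, a4.2]
  tim := fun ω => by
    rw [Nat.floor_lt (by have := tau_nonneg F h1 h2 ω; positivity)]
    have := tau_lt_one F h1 h2 ω
    have h3 : (0 : ℝ) < 2 ^ J := by positivity
    push_cast
    nlinarith

variable (F : Fam m J) {κ : ℝ} (h1 : -1 ≤ κ) (h2 : κ ≤ 1 / 2) (hu : ∀ ω i, |F.u ω i| ≤ 1)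

/-- times with the same image are close -/
lemma T_close (ω ω' : F.Ω) (h : (prj F κ h1 h2 hu).T ω = (prj F κ h1 h2 hu).T ω') :
    |(((F.T ω : ℤ) - (F.T ω' : ℤ) : ℤ) : ℝ)| ≤ 8 := by
  have a := nfloor_eq_near (by have := tau_nonneg F h1 h2 ω; positivity)
    (by have := tau_nonneg F h1 h2 ω'; positivity) h
  obtain ⟨b1, b2⟩ := den_bd F h1 h2 ω
  obtain ⟨c1, c2⟩ := den_bd F h1 h2 ω'
  have hJ : (0 : ℝ) < 2 ^ J := by positivity
  have e1 : (F.T ω : ℝ) = 2 ^ J * F.t ω := by unfold Fam.t; field_simp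
  have e2 : (F.T ω' : ℝ) = 2 ^ J * F.t ω' := by unfold Fam.t; field_simp
  have key : (F.T ω : ℝ) - F.T ω' = (2 ^ J * tau F κ ω - 2 ^ J * tau F κ ω') *
      (2 * ((1 - κ * F.t ω) * (1 - κ * F.t ω'))) := by
    have hb : (1 - κ * F.t ω) ≠ 0 := by linarith
    have hc : (1 - κ * F.t ω') ≠ 0 := by linarith
    have hk := key1 hb hc rfl rfl
    rw [e1, e2]
    unfold tau
    linear_combination (-(2 : ℝ) ^ J) * hk
  push_cast
  rw [key, abs_mul]
  have p1 : 0 ≤ (1 - κ * F.t ω) * (1 - κ * F.t ω') := by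
    apply mul_nonneg <;> linarith
  have p2 : (1 - κ * F.t ω) * (1 - κ * F.t ω') ≤ 2 * 2 := by
    apply mul_le_mul b2 c2 (by linarith) (by norm_num)
  rw [abs_of_nonneg (by linarith : 0 ≤ 2 * ((1 - κ * F.t ω) * (1 - κ * F.t ω')))]
  have p3 := abs_nonneg (2 ^ J * tau F κ ω - 2 ^ J * tau F κ ω')
  nlinarith

/-- the position of the image -/
lemma x_prj (ω : F.Ω) (i : Fin m) : |2 ^ J * (prj F κ h1 h2 hu).x ω i -
    2 ^ J * F.x ω i / (4 * (1 - κ * F.t ω))| ≤ 1 := by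
  obtain ⟨b1, b2⟩ := den_bd F h1 h2 ω
  have hJ : (0 : ℝ) < 2 ^ J := by positivity
  have hb : (1 - κ * F.t ω) ≠ 0 := by linarith
  have hf := Nat.floor_le (by have := tau_nonneg F h1 h2 ω; positivity : 0 ≤ 2 ^ J * tau F κ ω)
  have hf' := Nat.lt_floor_add_one (2 ^ J * tau F κ ω)
  have e0 : (prj F κ h1 h2 hu).x ω i = F.u ω i / 4 +
      ((⌊2 ^ J * tau F κ ω⌋₊ : ℕ) : ℝ) / 2 ^ J * ((F.d ω i + κ * F.u ω i) / 2) := rfl
  have e1 : 2 ^ J * (prj F κ h1 h2 hu).x ω i - 2 ^ J * F.x ω i / (4 * (1 - κ * F.t ω)) =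
      (((⌊2 ^ J * tau F κ ω⌋₊ : ℕ) : ℝ) - 2 ^ J * tau F κ ω) *
        ((F.d ω i + κ * F.u ω i) / 2) := by
    rw [e0]
    unfold Fam.x tau
    exact key2 hb hJ.ne' rfl
  rw [e1, abs_mul]
  have q1 : |((⌊2 ^ J * tau F κ ω⌋₊ : ℕ) : ℝ) - 2 ^ J * tau F κ ω| ≤ 1 := by
    rw [abs_le]
    constructor <;> linarith
  have q2 : |(F.d ω i + κ * F.u ω i) / 2| ≤ 1 := (prj F κ h1 h2 hu).dir ω i
  have q3 := abs_nonneg ((F.d ω i + κ * F.u ω i) / 2)
  have q4 := abs_nonneg (((⌊2 ^ J * tau F κ ω⌋₊ : ℕ) : ℝ) - 2 ^ J * tau F κ ω)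
  nlinarith

/-- The entropy of the old time given the new one. -/
lemma CH_T_le {S : Type} (W : F.Ω → S)
    (hW : ∀ ω ω', W ω = W ω' → (prj F κ h1 h2 hu).T ω = (prj F κ h1 h2 hu).T ω') :
    CH F.p F.T W ≤ Real.log 17 := by
  have e : CH F.p F.T W ≤ CH F.p (fun ω => (F.T ω : ℤ)) W :=
    CH_mono_left F.isLaw.nonneg (fun ω ω' _ _ h => by
      have h5 : (F.T ω : ℤ) = (F.T ω' : ℤ) := (Prod.ext_iff.mp h).1
      exact_mod_cast h5)
  refine e.trans ((CH_le_int F.isLaw.nonneg F.isLaw.sum_one _ _ (fun _ => 8) ?_).trans ?_)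
  · intro ω ω' _ _ h
    exact T_close F h1 h2 hu ω ω' (hW ω ω' h)
  · rw [Ex_const F.isLaw.sum_one]
    norm_num

/-- The time condition for the image. -/
lemma Tm_prj {e : ℝ} (h : F.Tm e) : (prj F κ h1 h2 hu).Tm (e + Real.log 17) := by
  unfold Fam.Tm at h ⊢
  have hp := F.isLaw.nonneg
  have c1 := CH_le_add hp F.T (prj F κ h1 h2 hu).T (fun ω => (F.l ω, F.Z ω))
  have c2 : CH F.p (prj F κ h1 h2 hu).T (fun ω => (F.l ω, F.Z ω)) ≤
      CH F.p (prj F κ h1 h2 hu).T (fun ω => ((prj F κ h1 h2 hu).l ω, (prj F κ h1 h2 hu).Z ω)) := by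
    refine CH_mono_cond hp ?_
    intro ω ω' _ _ hh
    have g1 := (Prod.ext_iff.mp hh).1
    have g2 := (Prod.ext_iff.mp hh).2
    have gu : F.u ω = F.u ω' := (Prod.ext_iff.mp g1).1
    have gd : F.d ω = F.d ω' := (Prod.ext_iff.mp g1).2
    refine Prod.ext ?_ g2
    show ((fun i => F.u ω i / 4), (fun i => (F.d ω i + κ * F.u ω i) / 2)) =
      ((fun i => F.u ω' i / 4), (fun i => (F.d ω' i + κ * F.u ω' i) / 2))
    rw [gu, gd]
  have c3 := CH_T_le F h1 h2 hu (fun ω => ((prj F κ h1 h2 hu).T ω, (F.l ω, F.Z ω)))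
    (fun ω ω' hh => (Prod.ext_iff.mp hh).1)
  show (J : ℝ) * Real.log 2 - (e + Real.log 17) ≤
    CH F.p (prj F κ h1 h2 hu).T (fun ω => ((prj F κ h1 h2 hu).l ω, (prj F κ h1 h2 hu).Z ω))
  linarith

/-- The projective direction is controlled by the direction of the image. -/
lemma CH_PD_le : CH F.p (PD F κ J) F.Z ≤
    CH F.p ((prj F κ h1 h2 hu).D J) F.Z + m * Real.log 7 := by
  have hp := F.isLaw.nonneg
  refine (CH_le_add hp (PD F κ J) ((prj F κ h1 h2 hu).D J) F.Z).trans ?_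
  have c : CH F.p (PD F κ J) (fun ω => ((prj F κ h1 h2 hu).D J ω, F.Z ω)) ≤
      m * Ex F.p (fun _ => Real.log (2 * 3 + 1)) := by
    refine CH_le_vec hp F.isLaw.sum_one _ _ (fun _ => 3) ?_
    intro ω ω' _ _ hh k
    have g1 := congrFun (Prod.ext_iff.mp hh).1 k
    have g2 : ⌊2 ^ J * ((F.d ω k + κ * F.u ω k) / 2)⌋ =
        ⌊2 ^ J * ((F.d ω' k + κ * F.u ω' k) / 2)⌋ := g1
    have g3 := abs_le.1 (floor_eq_near' g2)
    show |((⌊2 ^ J * (F.d ω k + κ * F.u ω k)⌋ - ⌊2 ^ J * (F.d ω' k + κ * F.u ω' k)⌋ : ℤ) : ℝ)| ≤ 3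
    refine (floor_diff' (L := 2) ?_).trans (by norm_num)
    rw [abs_le]
    constructor <;> linarith [g3.1, g3.2]
  rw [Ex_const F.isLaw.sum_one] at c
  have e : (2 * 3 + 1 : ℝ) = 7 := by norm_num
  rw [e] at c
  linarith

/-- The position of the image is controlled by the position. -/
lemma CH_X_le : CH F.p ((prj F κ h1 h2 hu).X J) (prj F κ h1 h2 hu).W ≤
    CH F.p (F.X J) F.W + Real.log 17 + m * Real.log 9 := by
  have hp := F.isLaw.nonneg
  have c1 := CH_le_add hp ((prj F κ h1 h2 hu).X J) F.T (prj F κ h1 h2 hu).W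
  have c2 := CH_T_le F h1 h2 hu (prj F κ h1 h2 hu).W
    (fun ω ω' hh => (Prod.ext_iff.mp hh).1)
  have c3 : CH F.p ((prj F κ h1 h2 hu).X J) (fun ω => (F.T ω, (prj F κ h1 h2 hu).W ω)) ≤
      CH F.p ((prj F κ h1 h2 hu).X J) F.W := by
    refine CH_mono_cond hp ?_
    intro ω ω' _ _ hh
    have g1 := (Prod.ext_iff.mp hh).1
    have g2 := (Prod.ext_iff.mp (Prod.ext_iff.mp hh).2).2
    exact Prod.ext g1 g2
  have c4 := CH_le_add hp ((prj F κ h1 h2 hu).X J) (F.X J) F.W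
  have c5 : CH F.p ((prj F κ h1 h2 hu).X J) (fun ω => (F.X J ω, F.W ω)) ≤
      m * Ex F.p (fun _ => Real.log (2 * 4 + 1)) := by
    refine CH_le_vec hp F.isLaw.sum_one _ _ (fun _ => 4) ?_
    intro ω ω' _ _ hh k
    have g1 := congrFun (Prod.ext_iff.mp hh).1 k
    have g2 : F.T ω = F.T ω' := (Prod.ext_iff.mp (Prod.ext_iff.mp hh).2).1
    have g3 : ⌊2 ^ J * F.x ω k⌋ = ⌊2 ^ J * F.x ω' k⌋ := g1
    have g4 := abs_le.1 (floor_eq_near' g3)
    have gt : F.t ω = F.t ω' := by unfold Fam.t; rw [g2]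
    have g5 := abs_le.1 (x_prj F h1 h2 hu ω k)
    have g6 := abs_le.1 (x_prj F h1 h2 hu ω' k)
    obtain ⟨b1, b2⟩ := den_bd F h1 h2 ω
    rw [← gt] at g6
    have g7 : |2 ^ J * F.x ω k / (4 * (1 - κ * F.t ω)) -
        2 ^ J * F.x ω' k / (4 * (1 - κ * F.t ω))| ≤ 1 / 2 := by
      rw [← sub_div, abs_div, abs_of_pos (by linarith : 0 < 4 * (1 - κ * F.t ω)),
        div_le_iff₀ (by linarith)]
      have := abs_le.2 g4
      linarith
    have g8 := abs_le.1 g7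
    show |((⌊2 ^ J * (prj F κ h1 h2 hu).x ω k⌋ - ⌊2 ^ J * (prj F κ h1 h2 hu).x ω' k⌋ : ℤ) : ℝ)|
      ≤ 4
    refine (floor_diff' (L := 5 / 2) ?_).trans (by norm_num)
    rw [abs_le]
    constructor <;> linarith [g5.1, g5.2, g6.1, g6.2, g8.1, g8.2]
  rw [Ex_const F.isLaw.sum_one] at c5
  have e : (2 * 4 + 1 : ℝ) = 9 := by norm_num
  rw [e] at c5
  linarith

/-- The constant. -/
noncomputable def cP (m : ℕ) : ℝ := m * Real.log 7 + Real.log 17 + m * Real.log 9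

lemma cP_nonneg (m : ℕ) : 0 ≤ cP m := by
  unfold cP
  have a1 : 0 ≤ Real.log 7 := Real.log_nonneg (by norm_num)
  have a2 : 0 ≤ Real.log 17 := Real.log_nonneg (by norm_num)
  have a3 : 0 ≤ Real.log 9 := Real.log_nonneg (by norm_num)
  positivity

/-- **The projective form of `K'(m)`.** -/
theorem pkp_of_kp {m : ℕ} (hK : KP m) : PKP m := by
  intro ε hε
  obtain ⟨θ, hθ, J₀, hJ₀⟩ := hK (ε / 2) (by positivity)
  obtain ⟨J₁, hJ₁⟩ := exists_nat_ge (Real.log 17 / (θ / 2))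
  obtain ⟨J₂, hJ₂⟩ := exists_nat_ge (cP m / (ε / 2))
  refine ⟨θ / 2, by positivity, max J₀ (max J₁ J₂), ?_⟩
  intro J hJ F hT hu κ h1 h2
  have b0 : J₀ ≤ J := (le_max_left _ _).trans hJ
  have b1 : (J₁ : ℝ) ≤ J := by
    exact_mod_cast (le_max_left _ _).trans ((le_max_right _ _).trans hJ)
  have b2 : (J₂ : ℝ) ≤ J := by
    exact_mod_cast (le_max_right _ _).trans ((le_max_right _ _).trans hJ)
  have c1 : Real.log 17 ≤ θ / 2 * J := by
    rw [div_le_iff₀ (by positivity)] at hJ₁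
    nlinarith
  have c2 : cP m ≤ ε / 2 * J := by
    rw [div_le_iff₀ (by positivity)] at hJ₂
    nlinarith
  have hT' := Tm_prj F h1 h2 hu hT
  have hT2 : (prj F κ h1 h2 hu).Tm (θ * J) := by
    unfold Fam.Tm at hT' ⊢
    linarith
  have hV := hJ₀ J b0 (prj F κ h1 h2 hu) hT2
  unfold Fam.V at hV
  rw [sub_self, zero_mul, mul_zero, sub_zero] at hV
  have d1 := CH_PD_le F h1 h2 hu
  have d2 := CH_X_le F h1 h2 hu
  have hV' : CH F.p ((prj F κ h1 h2 hu).D J) F.Z -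
      CH F.p ((prj F κ h1 h2 hu).X J) (prj F κ h1 h2 hu).W ≤ ε / 2 * J := hV
  unfold cP at c2
  linarith

/-- The trivial bound. -/
lemma CH_PD_triv {m J : ℕ} (F : Fam m J) (hu : ∀ ω i, |F.u ω i| ≤ 1) {κ : ℝ} (h1 : -1 ≤ κ)
    (h2 : κ ≤ 1 / 2) : CH F.p (PD F κ J) F.Z ≤ m * Real.log (2 * (4 * 2 ^ J + 1) + 1) := by
  have c : CH F.p (PD F κ J) F.Z ≤ m * Ex F.p (fun _ => Real.log (2 * (4 * 2 ^ J + 1) + 1)) := by
    refine CH_le_vec F.isLaw.nonneg F.isLaw.sum_one _ _ (fun _ => 4 * 2 ^ J + 1) ?_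
    intro ω ω' _ _ _ k
    have key : ∀ ω, |F.d ω k + κ * F.u ω k| ≤ 2 := by
      intro ω
      have a1 := F.dir ω k
      have a3 : |κ * F.u ω k| ≤ 1 := by
        rw [abs_mul]
        have : |κ| ≤ 1 := abs_le.2 ⟨h1, by linarith⟩
        have h4 := hu ω k
        have h5 := abs_nonneg κ
        have h6 := abs_nonneg (F.u ω k)
        nlinarith
      exact (abs_add_le _ _).trans (by linarith)
    show |((⌊2 ^ J * (F.d ω k + κ * F.u ω k)⌋ - ⌊2 ^ J * (F.d ω' k + κ * F.u ω' k)⌋ : ℤ) : ℝ)| ≤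
      4 * 2 ^ J + 1
    refine floor_diff' (L := 4 * 2 ^ J) ?_
    have k1 := abs_le.1 (key ω)
    have k2 := abs_le.1 (key ω')
    have hJ : (0 : ℝ) < 2 ^ J := by positivity
    rw [abs_le]
    constructor <;> nlinarith [k1.1, k1.2, k2.1, k2.2]
  rwa [Ex_const F.isLaw.sum_one] at c

/-- **The projective form of `K'(m)` for all resolutions.** -/
theorem pkpc_of_pkp {m : ℕ} (hK : PKP m) : PKPC m := by
  intro ε hε
  obtain ⟨θ, hθ, J₀, hJ₀⟩ := hK ε hε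
  have hC : 0 ≤ Real.log (2 * (4 * (2 : ℝ) ^ J₀ + 1) + 1) := by
    apply Real.log_nonneg
    have : (0 : ℝ) < 2 ^ J₀ := by positivity
    linarith
  refine ⟨θ, hθ, m * Real.log (2 * (4 * 2 ^ J₀ + 1) + 1), by positivity, ?_⟩
  intro J F hT hu κ h1 h2
  rcases Nat.lt_or_ge J J₀ with hJ | hJ
  · have c1 := CH_PD_triv F hu h1 h2
    have c2 : Real.log (2 * (4 * (2 : ℝ) ^ J + 1) + 1) ≤
        Real.log (2 * (4 * (2 : ℝ) ^ J₀ + 1) + 1) := by
      apply Real.log_le_log (by positivity)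
      have : (2 : ℝ) ^ J ≤ 2 ^ J₀ := pow_le_pow_right₀ (by norm_num) hJ.le
      linarith
    have c3 := CH_nonneg F.isLaw.nonneg (F.X J) F.W
    have c4 : (m : ℝ) * Real.log (2 * (4 * 2 ^ J + 1) + 1) ≤
        m * Real.log (2 * (4 * 2 ^ J₀ + 1) + 1) := mul_le_mul_of_nonneg_left c2 (by positivity)
    have c5 : 0 ≤ ε * J := by positivity
    linarith
  · have := hJ₀ J hJ F hT hu κ h1 h2
    have : 0 ≤ (m : ℝ) * Real.log (2 * (4 * 2 ^ J₀ + 1) + 1) := by positivity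
    linarith

theorem pkpc_of_kp {m : ℕ} (hK : KP m) : PKPC m := pkpc_of_pkp (pkp_of_kp hK)

end Pool.KMX
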