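import Pool.Agent.H9.KA.Defs

/-!
# The projective form of `K'(m)`: definition

The lines `u + t d` are seen from the point at time `1 / κ`: the direction of the line joining
it to the point at time `0` is `d + κ u`.
-/

set_option autoImplicit false

namespace Pool.KMX

open Finset Real
open Pool.Agent.H49.Ent Pool.Agent.H32.Dense Pool.STK Pool.KA

/-- The vector `d + κ u`, rounded at scale `2 ^ (-j)`. -/
noncomputable def PD {m J : ℕ} (F : Fam m J) (κ : ℝ) (j : ℕ) (ω : F.Ω) : Fin m → ℤ :=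
  fl j fun i => F.d ω i + κ * F.u ω i

/-- The projective form of `K'(m)`. -/
def PKP (m : ℕ) : Prop :=
  ∀ ε > 0, ∃ θ > 0, ∃ J₀ : ℕ, ∀ J ≥ J₀, ∀ F : Fam m J, F.Tm (θ * J) →
    (∀ ω i, |F.u ω i| ≤ 1) → ∀ κ : ℝ, -1 ≤ κ → κ ≤ 1 / 2 →
      CH F.p (PD F κ J) F.Z ≤ CH F.p (F.X J) F.W + ε * J

/-- The projective form of `K'(m)` for all resolutions, with an additive constant. -/
def PKPC (m : ℕ) : Prop :=
  ∀ ε > 0, ∃ θ > 0, ∃ C ≥ 0, ∀ J : ℕ, ∀ F : Fam m J, F.Tm (θ * J) →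
    (∀ ω i, |F.u ω i| ≤ 1) → ∀ κ : ℝ, -1 ≤ κ → κ ≤ 1 / 2 →
      CH F.p (PD F κ J) F.Z ≤ CH F.p (F.X J) F.W + ε * J + C

end Pool.KMX
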