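import Pool.Agent.H15.KMAX.PKP

/-!
# The projective form of `K'(m)`, the centre may depend on the side information
-/

set_option autoImplicit false

namespace Pool.KMX

open Finset Real
open Pool.Agent.H49.Ent Pool.Agent.H32.Dense Pool.STK Pool.KA

variable {m J : ℕ}

/-- The vector `d + κ(Z) u`, rounded at scale `2 ^ (-j)`. -/
noncomputable def PDz {m J : ℕ} (F : Fam m J) (κ : F.ζ → ℝ) (j : ℕ) (ω : F.Ω) : Fin m → ℤ :=
  fl j fun i => F.d ω i + κ (F.Z ω) * F.u ω i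

/-- The projective form of `K'(m)` for all resolutions; the centre depends on the side
information. -/
def PKPz (m : ℕ) : Prop :=
  ∀ ε > 0, ∃ θ > 0, ∃ C ≥ 0, ∀ J : ℕ, ∀ F : Fam m J, F.Tm (θ * J) →
    (∀ ω i, |F.u ω i| ≤ 1) → ∀ κ : F.ζ → ℝ, (∀ z, -1 ≤ κ z) → (∀ z, κ z ≤ 1 / 2) →
      CH F.p (PDz F κ J) F.Z ≤ CH F.p (F.X J) F.W + ε * J + C

/-- The image of a family under the projective map. -/
noncomputable def prjz (F : Fam m J) (κ : F.ζ → ℝ) (h1 : ∀ z, -1 ≤ κ z) (h2 : ∀ z, κ z ≤ 1 / 2)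
    (hu : ∀ ω i, |F.u ω i| ≤ 1) : Fam m J where
  Ω := F.Ω
  ζ := F.ζ
  fin := F.fin
  p := F.p
  u := fun ω i => F.u ω i / 4
  d := fun ω i => (F.d ω i + κ (F.Z ω) * F.u ω i) / 2
  T := fun ω => ⌊2 ^ J * tau F (κ (F.Z ω)) ω⌋₊
  Z := F.Z
  isLaw := F.isLaw
  dir := fun ω i => (prj F (κ (F.Z ω)) (h1 _) (h2 _) hu).dir ω i
  tim := fun ω => (prj F (κ (F.Z ω)) (h1 _) (h2 _) hu).tim ω

variable (F : Fam m J) {κ : F.ζ → ℝ} (h1 : ∀ z, -1 ≤ κ z) (h2 : ∀ z, κ z ≤ 1 / 2)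
  (hu : ∀ ω i, |F.u ω i| ≤ 1)

/-- times with the same image are close -/
lemma T_closez (ω ω' : F.Ω) (hZ : F.Z ω = F.Z ω')
    (h : (prjz F κ h1 h2 hu).T ω = (prjz F κ h1 h2 hu).T ω') :
    |(((F.T ω : ℤ) - (F.T ω' : ℤ) : ℤ) : ℝ)| ≤ 8 := by
  refine T_close F (h1 (F.Z ω)) (h2 (F.Z ω)) hu ω ω' ?_
  have h' : ⌊2 ^ J * tau F (κ (F.Z ω)) ω⌋₊ = ⌊2 ^ J * tau F (κ (F.Z ω')) ω'⌋₊ := h
  rw [← hZ] at h'
  exact h'

/-- the position of the image -/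
lemma x_prjz (ω : F.Ω) (i : Fin m) : |2 ^ J * (prjz F κ h1 h2 hu).x ω i -
    2 ^ J * F.x ω i / (4 * (1 - κ (F.Z ω) * F.t ω))| ≤ 1 :=
  x_prj F (h1 (F.Z ω)) (h2 (F.Z ω)) hu ω i

/-- The entropy of the old time given the new one. -/
lemma CH_T_lez {S : Type} (W : F.Ω → S)
    (hW : ∀ ω ω', W ω = W ω' → (prjz F κ h1 h2 hu).T ω = (prjz F κ h1 h2 hu).T ω' ∧
      F.Z ω = F.Z ω') :
    CH F.p F.T W ≤ Real.log 17 := by
  have e : CH F.p F.T W ≤ CH F.p (fun ω => (F.T ω : ℤ)) W :=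
    CH_mono_left F.isLaw.nonneg (fun ω ω' _ _ h => by
      have h5 : (F.T ω : ℤ) = (F.T ω' : ℤ) := (Prod.ext_iff.mp h).1
      exact_mod_cast h5)
  refine e.trans ((CH_le_int F.isLaw.nonneg F.isLaw.sum_one _ _ (fun _ => 8) ?_).trans ?_)
  · intro ω ω' _ _ h
    exact T_closez F h1 h2 hu ω ω' (hW ω ω' h).2 (hW ω ω' h).1
  · rw [Ex_const F.isLaw.sum_one]
    norm_num

/-- The time condition for the image. -/
lemma Tm_prjz {e : ℝ} (h : F.Tm e) : (prjz F κ h1 h2 hu).Tm (e + Real.log 17) := by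
  unfold Fam.Tm at h ⊢
  have hp := F.isLaw.nonneg
  have c1 := CH_le_add hp F.T (prjz F κ h1 h2 hu).T (fun ω => (F.l ω, F.Z ω))
  have c2 : CH F.p (prjz F κ h1 h2 hu).T (fun ω => (F.l ω, F.Z ω)) ≤
      CH F.p (prjz F κ h1 h2 hu).T
        (fun ω => ((prjz F κ h1 h2 hu).l ω, (prjz F κ h1 h2 hu).Z ω)) := by
    refine CH_mono_cond hp ?_
    intro ω ω' _ _ hh
    have g1 := (Prod.ext_iff.mp hh).1
    have g2 : F.Z ω = F.Z ω' := (Prod.ext_iff.mp hh).2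
    have gu : F.u ω = F.u ω' := (Prod.ext_iff.mp g1).1
    have gd : F.d ω = F.d ω' := (Prod.ext_iff.mp g1).2
    refine Prod.ext ?_ g2
    show ((fun i => F.u ω i / 4), (fun i => (F.d ω i + κ (F.Z ω) * F.u ω i) / 2)) =
      ((fun i => F.u ω' i / 4), (fun i => (F.d ω' i + κ (F.Z ω') * F.u ω' i) / 2))
    rw [gu, gd, g2]
  have c3 := CH_T_lez F h1 h2 hu (fun ω => ((prjz F κ h1 h2 hu).T ω, (F.l ω, F.Z ω)))
    (fun ω ω' hh => ⟨(Prod.ext_iff.mp hh).1, (Prod.ext_iff.mp (Prod.ext_iff.mp hh).2).2⟩)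
  show (J : ℝ) * Real.log 2 - (e + Real.log 17) ≤
    CH F.p (prjz F κ h1 h2 hu).T (fun ω => ((prjz F κ h1 h2 hu).l ω, (prjz F κ h1 h2 hu).Z ω))
  linarith

/-- The projective direction is controlled by the direction of the image. -/
lemma CH_PD_lez : CH F.p (PDz F κ J) F.Z ≤
    CH F.p ((prjz F κ h1 h2 hu).D J) F.Z + m * Real.log 7 := by
  have hp := F.isLaw.nonneg
  refine (CH_le_add hp (PDz F κ J) ((prjz F κ h1 h2 hu).D J) F.Z).trans ?_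
  have c : CH F.p (PDz F κ J) (fun ω => ((prjz F κ h1 h2 hu).D J ω, F.Z ω)) ≤
      m * Ex F.p (fun _ => Real.log (2 * 3 + 1)) := by
    refine CH_le_vec hp F.isLaw.sum_one _ _ (fun _ => 3) ?_
    intro ω ω' _ _ hh k
    have g1 := congrFun (Prod.ext_iff.mp hh).1 k
    have g2 : ⌊2 ^ J * ((F.d ω k + κ (F.Z ω) * F.u ω k) / 2)⌋ =
        ⌊2 ^ J * ((F.d ω' k + κ (F.Z ω') * F.u ω' k) / 2)⌋ := g1
    have g3 := abs_le.1 (floor_eq_near' g2)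
    show |((⌊2 ^ J * (F.d ω k + κ (F.Z ω) * F.u ω k)⌋ -
      ⌊2 ^ J * (F.d ω' k + κ (F.Z ω') * F.u ω' k)⌋ : ℤ) : ℝ)| ≤ 3
    refine (floor_diff' (L := 2) ?_).trans (by norm_num)
    rw [abs_le]
    constructor <;> linarith [g3.1, g3.2]
  rw [Ex_const F.isLaw.sum_one] at c
  have e : (2 * 3 + 1 : ℝ) = 7 := by norm_num
  rw [e] at c
  linarith

/-- The position of the image is controlled by the position. -/
lemma CH_X_lez : CH F.p ((prjz F κ h1 h2 hu).X J) (prjz F κ h1 h2 hu).W ≤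
    CH F.p (F.X J) F.W + Real.log 17 + m * Real.log 9 := by
  have hp := F.isLaw.nonneg
  have c1 := CH_le_add hp ((prjz F κ h1 h2 hu).X J) F.T (prjz F κ h1 h2 hu).W
  have c2 := CH_T_lez F h1 h2 hu (prjz F κ h1 h2 hu).W
    (fun ω ω' hh => ⟨(Prod.ext_iff.mp hh).1, (Prod.ext_iff.mp hh).2⟩)
  have c3 : CH F.p ((prjz F κ h1 h2 hu).X J) (fun ω => (F.T ω, (prjz F κ h1 h2 hu).W ω)) ≤
      CH F.p ((prjz F κ h1 h2 hu).X J) F.W := by
    refine CH_mono_cond hp ?_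
    intro ω ω' _ _ hh
    have g1 := (Prod.ext_iff.mp hh).1
    have g2 := (Prod.ext_iff.mp (Prod.ext_iff.mp hh).2).2
    exact Prod.ext g1 g2
  have c4 := CH_le_add hp ((prjz F κ h1 h2 hu).X J) (F.X J) F.W
  have c5 : CH F.p ((prjz F κ h1 h2 hu).X J) (fun ω => (F.X J ω, F.W ω)) ≤
      m * Ex F.p (fun _ => Real.log (2 * 4 + 1)) := by
    refine CH_le_vec hp F.isLaw.sum_one _ _ (fun _ => 4) ?_
    intro ω ω' _ _ hh k
    have g1 := congrFun (Prod.ext_iff.mp hh).1 k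
    have g2 : F.T ω = F.T ω' := (Prod.ext_iff.mp (Prod.ext_iff.mp hh).2).1
    have gZ : F.Z ω = F.Z ω' := (Prod.ext_iff.mp (Prod.ext_iff.mp hh).2).2
    have g3 : ⌊2 ^ J * F.x ω k⌋ = ⌊2 ^ J * F.x ω' k⌋ := g1
    have g4 := abs_le.1 (floor_eq_near' g3)
    have gt : F.t ω = F.t ω' := by unfold Fam.t; rw [g2]
    have g5 := abs_le.1 (x_prjz F h1 h2 hu ω k)
    have g6 := abs_le.1 (x_prjz F h1 h2 hu ω' k)
    obtain ⟨b1, b2⟩ := den_bd F (h1 (F.Z ω)) (h2 (F.Z ω)) ω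
    rw [← gt, ← gZ] at g6
    have g7 : |2 ^ J * F.x ω k / (4 * (1 - κ (F.Z ω) * F.t ω)) -
        2 ^ J * F.x ω' k / (4 * (1 - κ (F.Z ω) * F.t ω))| ≤ 1 / 2 := by
      rw [← sub_div, abs_div, abs_of_pos (by linarith : 0 < 4 * (1 - κ (F.Z ω) * F.t ω)),
        div_le_iff₀ (by linarith)]
      have := abs_le.2 g4
      linarith
    have g8 := abs_le.1 g7
    show |((⌊2 ^ J * (prjz F κ h1 h2 hu).x ω k⌋ -
      ⌊2 ^ J * (prjz F κ h1 h2 hu).x ω' k⌋ : ℤ) : ℝ)| ≤ 4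
    refine (floor_diff' (L := 5 / 2) ?_).trans (by norm_num)
    rw [abs_le]
    constructor <;> linarith [g5.1, g5.2, g6.1, g6.2, g8.1, g8.2]
  rw [Ex_const F.isLaw.sum_one] at c5
  have e : (2 * 4 + 1 : ℝ) = 9 := by norm_num
  rw [e] at c5
  linarith

/-- The trivial bound. -/
lemma CH_PD_trivz {m J : ℕ} (F : Fam m J) (hu : ∀ ω i, |F.u ω i| ≤ 1) {κ : F.ζ → ℝ}
    (h1 : ∀ z, -1 ≤ κ z) (h2 : ∀ z, κ z ≤ 1 / 2) :
    CH F.p (PDz F κ J) F.Z ≤ m * Real.log (2 * (4 * 2 ^ J + 1) + 1) := by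
  have c : CH F.p (PDz F κ J) F.Z ≤
      m * Ex F.p (fun _ => Real.log (2 * (4 * 2 ^ J + 1) + 1)) := by
    refine CH_le_vec F.isLaw.nonneg F.isLaw.sum_one _ _ (fun _ => 4 * 2 ^ J + 1) ?_
    intro ω ω' _ _ _ k
    have key : ∀ ω, |F.d ω k + κ (F.Z ω) * F.u ω k| ≤ 2 := by
      intro ω
      have a1 := F.dir ω k
      have a3 : |κ (F.Z ω) * F.u ω k| ≤ 1 := by
        rw [abs_mul]
        have : |κ (F.Z ω)| ≤ 1 := abs_le.2 ⟨h1 _, by linarith [h2 (F.Z ω)]⟩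
        have h4 := hu ω k
        have h5 := abs_nonneg (κ (F.Z ω))
        have h6 := abs_nonneg (F.u ω k)
        nlinarith
      exact (abs_add_le _ _).trans (by linarith)
    show |((⌊2 ^ J * (F.d ω k + κ (F.Z ω) * F.u ω k)⌋ -
      ⌊2 ^ J * (F.d ω' k + κ (F.Z ω') * F.u ω' k)⌋ : ℤ) : ℝ)| ≤ 4 * 2 ^ J + 1
    refine floor_diff' (L := 4 * 2 ^ J) ?_
    have k1 := abs_le.1 (key ω)
    have k2 := abs_le.1 (key ω')
    have hJ : (0 : ℝ) < 2 ^ J := by positivity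
    rw [abs_le]
    constructor <;> nlinarith [k1.1, k1.2, k2.1, k2.2]
  rwa [Ex_const F.isLaw.sum_one] at c

/-- **The projective form of `K'(m)`, the centre depends on the side information.** -/
theorem pkpz_of_kp {m : ℕ} (hK : KP m) : PKPz m := by
  intro ε hε
  obtain ⟨θ, hθ, J₀, hJ₀⟩ := hK (ε / 2) (by positivity)
  obtain ⟨J₁, hJ₁⟩ := exists_nat_ge (Real.log 17 / (θ / 2))
  obtain ⟨J₂, hJ₂⟩ := exists_nat_ge (cP m / (ε / 2))
  obtain ⟨J₃, hJ₃⟩ : ∃ J₃, J₃ = max J₀ (max J₁ J₂) := ⟨_, rfl⟩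
  have hC : 0 ≤ Real.log (2 * (4 * (2 : ℝ) ^ J₃ + 1) + 1) := by
    apply Real.log_nonneg
    have : (0 : ℝ) < 2 ^ J₃ := by positivity
    linarith
  refine ⟨θ / 2, by positivity, m * Real.log (2 * (4 * 2 ^ J₃ + 1) + 1), by positivity, ?_⟩
  intro J F hT hu κ h1 h2
  rcases Nat.lt_or_ge J J₃ with hJ | hJ
  · have c1 := CH_PD_trivz F hu h1 h2
    have c2 : Real.log (2 * (4 * (2 : ℝ) ^ J + 1) + 1) ≤
        Real.log (2 * (4 * (2 : ℝ) ^ J₃ + 1) + 1) := by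
      apply Real.log_le_log (by positivity)
      have : (2 : ℝ) ^ J ≤ 2 ^ J₃ := pow_le_pow_right₀ (by norm_num) hJ.le
      linarith
    have c3 := CH_nonneg F.isLaw.nonneg (F.X J) F.W
    have c4 : (m : ℝ) * Real.log (2 * (4 * 2 ^ J + 1) + 1) ≤
        m * Real.log (2 * (4 * 2 ^ J₃ + 1) + 1) := mul_le_mul_of_nonneg_left c2 (by positivity)
    have c5 : 0 ≤ ε * J := by positivity
    linarith
  · rw [hJ₃] at hJ
    have b0 : J₀ ≤ J := (le_max_left _ _).trans hJ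
    have b1 : (J₁ : ℝ) ≤ J := by
      exact_mod_cast (le_max_left _ _).trans ((le_max_right _ _).trans hJ)
    have b2 : (J₂ : ℝ) ≤ J := by
      exact_mod_cast (le_max_right _ _).trans ((le_max_right _ _).trans hJ)
    have c1 : Real.log 17 ≤ θ / 2 * J := by
      rw [div_le_iff₀ (by positivity)] at hJ₁
      nlinarith
    have c2 : cP m ≤ ε / 2 * J := by
      rw [div_le_iff₀ (by positivity)] at hJ₂
      nlinarith
    have hT' := Tm_prjz F h1 h2 hu hT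
    have hT2 : (prjz F κ h1 h2 hu).Tm (θ * J) := by
      unfold Fam.Tm at hT' ⊢
      linarith
    have hV := hJ₀ J b0 (prjz F κ h1 h2 hu) hT2
    unfold Fam.V at hV
    rw [sub_self, zero_mul, mul_zero, sub_zero] at hV
    have d1 := CH_PD_lez F h1 h2 hu
    have d2 := CH_X_lez F h1 h2 hu
    have hV' : CH F.p ((prjz F κ h1 h2 hu).D J) F.Z -
        CH F.p ((prjz F κ h1 h2 hu).X J) (prjz F κ h1 h2 hu).W ≤ ε / 2 * J := hV
    unfold cP at c2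
    have : 0 ≤ (m : ℝ) * Real.log (2 * (4 * 2 ^ J₃ + 1) + 1) := by positivity
    linarith

end Pool.KMX
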